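import Pool.Agent.W106.HT.Card
import Pool.Agent.W272.HTCLASS

/-!
`S_red` from the other parts (MP_9e5f8f_co): the reduction of all trees to `D_n`.
-/

set_option autoImplicit false

namespace Pool.Agent.W106.HT

open Finset
open Pool.Agent.W272.HTCLASS (RIso.refl RIso.symm RIso.trans RIso.att RIso.swap)

/-- Isomorphism without roots. -/
def UIso (A B : BT) : Prop := Nonempty (A.graph ≃g B.graph)

theorem UIso.refl (A : BT) : UIso A A := ⟨SimpleGraph.Iso.refl⟩

theorem UIso.symm {A B : BT} (h : UIso A B) : UIso B A := h.map fun e => e.symm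

theorem UIso.trans {A B C : BT} (h : UIso A B) (h' : UIso B C) : UIso A C := by
  obtain ⟨e⟩ := h
  obtain ⟨f⟩ := h'
  exact ⟨e.trans f⟩

theorem RIso.u {A B : BT} (h : RIso A B) : UIso A B := ⟨h.choose⟩

theorem UIso.swap (A B : BT) : UIso (.att A B) (.att B A) := by
  refine ⟨{ toEquiv := Equiv.sumComm A.V B.V, map_rel_iff' := ?_ }⟩
  rintro (x | x) (y | y)
  · exact Iff.rfl
  · exact Iff.rfl
  · exact Iff.rfl
  · exact Iff.rfl

/-- Every tree with at least one edge is planted, after re-rooting. -/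
theorem planted_aux (b : BT) : ∀ a : BT, ∃ τ : BT, UIso (.att a b) (.att .pt τ) := by
  induction b with
  | pt => intro a; exact ⟨a, UIso.swap _ _⟩
  | att b1 b2 _ ih2 =>
    intro a
    obtain ⟨τ, hτ⟩ := ih2 (.att b1 a)
    exact ⟨τ, ((UIso.swap a (.att b1 b2)).trans (RIso.u (RIso.swap b1 b2 a))).trans hτ⟩

theorem ch_ch (k j : ℕ) (B : BT) : ch k (ch j B) = ch (k + j) B := by
  induction k with
  | zero => simp [ch]
  | succ k ih =>
    rw [show k + 1 + j = (k + j) + 1 by omega]
    show BT.att .pt (ch k (ch j B)) = BT.att .pt (ch (k + j) B)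
    rw [ih]

/-- Move the root along a path. -/
theorem UIso.path (l : ℕ) : ∀ (A X : BT), UIso (.att A (ch l X)) (.att X (ch l A)) := by
  induction l with
  | zero => intro A X; exact UIso.swap _ _
  | succ l ih =>
    intro A X
    have h1 : UIso (.att A (.att .pt (ch l X))) (.att (.att .pt A) (ch l X)) :=
      (UIso.swap _ _).trans (RIso.u (RIso.swap .pt (ch l X) A))
    have h2 := ih (.att .pt A) X
    have h3 : ch l (.att .pt A) = ch (l + 1) A := by
      have : BT.att .pt A = ch 1 A := rfl
      rw [this, ch_ch]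
    rw [h3] at h2
    exact h1.trans h2

theorem chain_path (i : ℕ) : ∀ j : ℕ, UIso (.att (ch i .pt) (ch j .pt)) (ch (i + j + 1) .pt) := by
  intro j
  have h := UIso.path j (ch i .pt) .pt
  rw [ch_ch] at h
  rw [show i + j + 1 = (j + i) + 1 by omega]
  exact h

/-- The chain is the path. -/
theorem chain_iso (k : ℕ) : ∃ e : (ch k .pt).graph ≃g SimpleGraph.pathGraph (k + 1), (e (ch k .pt).root).val = 0 := by
  induction k with
  | zero =>
    refine ⟨{ toFun := fun _ => 0, invFun := fun _ => (), left_inv := fun _ => rfl, right_inv := fun x => by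
                apply Fin.ext; omega, map_rel_iff' := ?_ }, rfl⟩
    intro x y
    constructor
    · intro h
      exact absurd h (SimpleGraph.irrefl _)
    · intro h; exact False.elim h
  | succ k ih =>
    obtain ⟨e, he⟩ := ih
    let f : (ch (k + 1) .pt).V → Fin (k + 1 + 1) := fun v => Sum.elim (fun _ => 0) (fun y => (e y).succ) v
    have hinj : Function.Injective f := by
      rintro (x | x) (y | y) h
      · rfl
      · exfalso
        have := congrArg Fin.val h
        simp [f] at this
      · exfalso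
        have := congrArg Fin.val h
        simp [f] at this
      · have h2 : (e x).succ = (e y).succ := h
        rw [Fin.succ_inj, e.injective.eq_iff] at h2
        rw [h2]
    have hsurj : Function.Surjective f := by
      intro z
      refine Fin.cases ?_ (fun w => ?_) z
      · exact ⟨Sum.inl (), rfl⟩
      · exact ⟨Sum.inr (e.symm w), by simp [f]⟩
    refine ⟨{ toEquiv := Equiv.ofBijective f ⟨hinj, hsurj⟩, map_rel_iff' := ?_ }, rfl⟩
    have hroot : ∀ y, (e y).val = 0 ↔ y = (ch k .pt).root := by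
      intro y
      rw [← he]
      constructor
      · intro h
        exact e.injective (Fin.ext h)
      · intro h; rw [h]
    rintro (x | x) (y | y)
    · show (SimpleGraph.pathGraph _).Adj (0 : Fin (k + 1 + 1)) 0 ↔ False
      simp
    · show (SimpleGraph.pathGraph _).Adj (0 : Fin (k + 1 + 1)) (e y).succ ↔ (x = () ∧ y = (ch k .pt).root)
      rw [SimpleGraph.pathGraph_adj, ← hroot y]
      simp only [Fin.val_zero, Fin.val_succ]
      constructor
      · intro h; exact ⟨rfl, by omega⟩
      · intro h; omega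
    · show (SimpleGraph.pathGraph _).Adj (e x).succ (0 : Fin (k + 1 + 1)) ↔ (x = (ch k .pt).root ∧ y = ())
      rw [SimpleGraph.pathGraph_adj, ← hroot x]
      simp only [Fin.val_zero, Fin.val_succ]
      constructor
      · intro h; exact ⟨by omega, rfl⟩
      · intro h; omega
    · show (SimpleGraph.pathGraph _).Adj (e x).succ (e y).succ ↔ (ch k .pt).Adj x y
      have := e.map_rel_iff' (a := x) (b := y)
      rw [SimpleGraph.pathGraph_adj]
      have h2 : (SimpleGraph.pathGraph (k + 1)).Adj (e x) (e y) ↔ (ch k .pt).graph.Adj x y := this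
      rw [SimpleGraph.pathGraph_adj] at h2
      rw [show (ch k BT.pt).Adj x y ↔ (ch k .pt).graph.Adj x y from Iff.rfl, ← h2]
      simp only [Fin.val_succ]
      omega

/-- The numbering of the vertices of `D_n` as a spider. -/
def gD {V : Type} (e : V → ℕ) : ((Unit ⊕ V) ⊕ Unit) ⊕ Unit → ℕ
  | .inl (.inl (.inl _)) => 2
  | .inl (.inl (.inr y)) => e y + 3
  | .inl (.inr _) => 0
  | .inr _ => 1

/-- The adjacency relation of the spider. -/
def aD {V : Type} (r : V) (adj : V → V → Prop) : (((Unit ⊕ V) ⊕ Unit) ⊕ Unit) → (((Unit ⊕ V) ⊕ Unit) ⊕ Unit) → Prop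
  | .inl (.inl (.inl _)), .inl (.inl (.inl _)) => False
  | .inl (.inl (.inl _)), .inl (.inl (.inr y)) => y = r
  | .inl (.inl (.inl _)), .inl (.inr _) => True
  | .inl (.inl (.inl _)), .inr _ => True
  | .inl (.inl (.inr x)), .inl (.inl (.inl _)) => x = r
  | .inl (.inl (.inr x)), .inl (.inl (.inr y)) => adj x y
  | .inl (.inl (.inr _)), .inl (.inr _) => False
  | .inl (.inl (.inr _)), .inr _ => False
  | .inl (.inr _), .inl (.inl (.inl _)) => True
  | .inl (.inr _), .inl (.inl (.inr _)) => False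
  | .inl (.inr _), .inl (.inr _) => False
  | .inl (.inr _), .inr _ => False
  | .inr _, .inl (.inl (.inl _)) => True
  | .inr _, .inl (.inl (.inr _)) => False
  | .inr _, .inl (.inr _) => False
  | .inr _, .inr _ => False

theorem gD_inj {V : Type} (e : V → ℕ) (he : Function.Injective e) : Function.Injective (gD e) := by
  rintro (((x | x) | x) | x) (((y | y) | y) | y) h <;> simp only [gD] at h <;> try (exfalso; omega)
  · rfl
  · have : e x = e y := by omega
    rw [he this]
  · rfl
  · rfl

theorem aD_iff {V : Type} (r : V) (adj : V → V → Prop) (e : V → ℕ) (hr : ∀ y, e y = 0 ↔ y = r)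
    (ha : ∀ x y, adj x y ↔ (e x + 1 = e y ∨ e y + 1 = e x)) (x y : ((Unit ⊕ V) ⊕ Unit) ⊕ Unit) :
    aD r adj x y ↔ (gD e x ≠ gD e y ∧ (((gD e x = 0 ∧ gD e y = 2) ∨ (gD e x = 1 ∧ gD e y = 2) ∨
      (2 ≤ gD e x ∧ gD e y = gD e x + 1)) ∨ ((gD e y = 0 ∧ gD e x = 2) ∨ (gD e y = 1 ∧ gD e x = 2) ∨
      (2 ≤ gD e y ∧ gD e x = gD e y + 1)))) := by
  rcases x with ((x | x) | x) | x <;> rcases y with ((y | y) | y) | y <;>
    simp only [aD, gD, ← hr, ha, false_iff, true_iff]
  all_goals first | omega | simp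

theorem aD_eq (A : BT) (x y : (N3 A .pt .pt).V) : (N3 A .pt .pt).Adj x y ↔ aD A.root A.Adj x y := by
  have e1 : ∀ x y : Unit, x = y := fun _ _ => rfl
  rcases x with ((x | x) | x) | x <;> rcases y with ((y | y) | y) | y
  · exact Iff.rfl
  · exact ⟨fun h => h.2, fun h => ⟨rfl, h⟩⟩
  · exact ⟨fun _ => trivial, fun _ => ⟨rfl, rfl⟩⟩
  · exact ⟨fun _ => trivial, fun _ => ⟨rfl, rfl⟩⟩
  · exact ⟨fun h => h.1, fun h => ⟨h, rfl⟩⟩
  · exact Iff.rfl
  · exact ⟨fun h => absurd h.1 Sum.inr_ne_inl, fun h => h.elim⟩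
  · exact ⟨fun h => absurd (Sum.inl.inj h.1) Sum.inr_ne_inl, fun h => h.elim⟩
  · exact ⟨fun _ => trivial, fun _ => ⟨rfl, rfl⟩⟩
  · exact ⟨fun h => absurd h.2 Sum.inr_ne_inl, fun h => h.elim⟩
  · exact Iff.rfl
  · exact ⟨fun h => absurd h.1 Sum.inr_ne_inl, fun h => h.elim⟩
  · exact ⟨fun _ => trivial, fun _ => ⟨rfl, rfl⟩⟩
  · exact ⟨fun h => absurd (Sum.inl.inj h.2) Sum.inr_ne_inl, fun h => h.elim⟩
  · exact ⟨fun h => absurd h.2 Sum.inr_ne_inl, fun h => h.elim⟩
  · exact Iff.rfl

/-- `D_n` as a spider. -/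
theorem dg_iso (k : ℕ) : Nonempty ((N3 (ch k .pt) .pt .pt).graph ≃g Dg (k + 4)) := by
  obtain ⟨e, he⟩ := chain_iso k
  have hroot : ∀ y, (e y).val = 0 ↔ y = (ch k .pt).root := by
    intro y
    rw [← he]
    constructor
    · intro h
      exact e.injective (Fin.ext h)
    · intro h; rw [h]
  have hadj : ∀ x y, (ch k .pt).Adj x y ↔ ((e x).val + 1 = (e y).val ∨ (e y).val + 1 = (e x).val) := by
    intro x y
    have := e.map_rel_iff' (a := x) (b := y)
    have h2 : (SimpleGraph.pathGraph (k + 1)).Adj (e x) (e y) ↔ (ch k .pt).graph.Adj x y := this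
    rw [SimpleGraph.pathGraph_adj] at h2
    exact h2.symm
  have hlt : ∀ v : ((Unit ⊕ (ch k .pt).V) ⊕ Unit) ⊕ Unit, gD (fun y => (e y).val) v < k + 4 := by
    rintro (((x | x) | x) | x) <;> simp only [gD] <;> omega
  let f : (N3 (ch k .pt) .pt .pt).V → Fin (k + 4) := fun v => ⟨gD (fun y => (e y).val) v, hlt v⟩
  have hinj : Function.Injective f := by
    intro x y h
    have h2 : gD (fun y => (e y).val) x = gD (fun y => (e y).val) y := congrArg Fin.val h
    exact gD_inj _ (fun a b hab => e.injective (Fin.ext hab)) h2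
  have hsurj : Function.Surjective f := by
    intro z
    by_cases h0 : z.val = 0
    · exact ⟨Sum.inl (Sum.inr ()), Fin.ext h0.symm⟩
    by_cases h1 : z.val = 1
    · exact ⟨Sum.inr (), Fin.ext h1.symm⟩
    by_cases h2 : z.val = 2
    · exact ⟨Sum.inl (Sum.inl (Sum.inl ())), Fin.ext h2.symm⟩
    refine ⟨Sum.inl (Sum.inl (Sum.inr (e.symm ⟨z.val - 3, by omega⟩))), Fin.ext ?_⟩
    show (e (e.symm ⟨z.val - 3, by omega⟩)).val + 3 = z.val
    have h3 : e (e.symm ⟨z.val - 3, by omega⟩) = ⟨z.val - 3, by omega⟩ := e.apply_symm_apply _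
    rw [h3]
    show z.val - 3 + 3 = z.val
    omega
  refine ⟨{ toEquiv := Equiv.ofBijective f ⟨hinj, hsurj⟩, map_rel_iff' := ?_ }⟩
  intro x y
  show (Dg (k + 4)).Adj (f x) (f y) ↔ (N3 (ch k .pt) .pt .pt).Adj x y
  refine Iff.trans ?_ (aD_eq (ch k .pt) x y).symm
  refine Iff.trans ?_ (aD_iff _ _ (fun y => (e y).val) hroot hadj x y).symm
  unfold Dg
  rw [SimpleGraph.fromRel_adj]
  have hne : f x ≠ f y ↔ gD (fun y => (e y).val) x ≠ gD (fun y => (e y).val) y := by
    rw [Ne, Ne, Fin.ext_iff]
  rw [hne]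

/-! ### Degrees -/

/-- Left embedding. -/
def Lv (a b : BT) (x : a.V) : (BT.att a b).V := Sum.inl x

/-- Right embedding. -/
def Rv (a b : BT) (y : b.V) : (BT.att a b).V := Sum.inr y

theorem Lv_inj {a b : BT} {x y : a.V} : Lv a b x = Lv a b y ↔ x = y :=
  ⟨fun h => Sum.inl.inj h, fun h => congrArg _ h⟩

theorem Rv_ne_Lv {a b : BT} {x : a.V} {y : b.V} : Rv a b y ≠ Lv a b x := fun h => Sum.inr_ne_inl h

theorem sum_att {M : Type} [AddCommMonoid M] (a b : BT) (f : (BT.att a b).V → M) :
    ∑ v, f v = (∑ x, f (Lv a b x)) + ∑ y, f (Rv a b y) :=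
  Fintype.sum_sum_type (α₁ := a.V) (α₂ := b.V) f

theorem prod_att {M : Type} [CommMonoid M] (a b : BT) (f : (BT.att a b).V → M) :
    ∏ v, f v = (∏ x, f (Lv a b x)) * ∏ y, f (Rv a b y) :=
  Fintype.prod_sum_type (α₁ := a.V) (α₂ := b.V) f

theorem all_pt (v : BT.pt.V) : v = BT.pt.root := rfl

theorem sum_pt {M : Type} [AddCommMonoid M] (f : BT.pt.V → M) : ∑ v, f v = f BT.pt.root :=
  Fintype.sum_unique (ι := Unit) f

theorem prod_pt {M : Type} [CommMonoid M] (f : BT.pt.V → M) : ∏ v, f v = f BT.pt.root :=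
  Fintype.prod_unique (ι := Unit) f

section degrees
open Classical

/-- The degree as a sum. -/
noncomputable def dg (t : BT) (v : t.V) : ℕ := ∑ w, if t.Adj v w then 1 else 0

theorem dg_eq (t : BT) (v : t.V) : (t.graph.degree v) = dg t v := by
  unfold dg
  rw [← SimpleGraph.card_neighborFinset_eq_degree, SimpleGraph.neighborFinset_eq_filter, Finset.card_filter]
  rfl

theorem adj_LL (a b : BT) (x y : a.V) : (BT.att a b).Adj (Lv a b x) (Lv a b y) ↔ a.Adj x y := Iff.rfl
theorem adj_RR (a b : BT) (x y : b.V) : (BT.att a b).Adj (Rv a b x) (Rv a b y) ↔ b.Adj x y := Iff.rfl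
theorem adj_LR (a b : BT) (x : a.V) (y : b.V) :
    (BT.att a b).Adj (Lv a b x) (Rv a b y) ↔ (x = a.root ∧ y = b.root) := Iff.rfl
theorem adj_RL (a b : BT) (x : a.V) (y : b.V) :
    (BT.att a b).Adj (Rv a b y) (Lv a b x) ↔ (y = b.root ∧ x = a.root) := Iff.rfl
theorem root_att (a b : BT) : (BT.att a b).root = Lv a b a.root := rfl

theorem dg_L (a b : BT) (x : a.V) :
    dg (.att a b) (Lv a b x) = dg a x + if x = a.root then 1 else 0 := by
  unfold dg
  rw [sum_att]
  simp only [adj_LL, adj_LR]
  congr 1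
  by_cases hx : x = a.root
  · simp [hx]
  · simp [hx]

theorem dg_R (a b : BT) (y : b.V) :
    dg (.att a b) (Rv a b y) = dg b y + if y = b.root then 1 else 0 := by
  unfold dg
  rw [sum_att, add_comm]
  simp only [adj_RR, adj_RL]
  congr 1
  by_cases hx : y = b.root
  · simp [hx]
  · simp [hx]

theorem dg_pt : dg .pt BT.pt.root = 0 := by
  unfold dg
  rw [sum_pt]
  exact if_neg (fun h => h)

theorem prod_dg (t : BT) : ∀ m : ℕ, ∏ v, (dg t v + if v = t.root then m else 0) ^
    (dg t v + if v = t.root then m else 0) = ent t * (nch t + m) ^ (nch t + m) := by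
  induction t with
  | pt =>
    intro m
    rw [prod_pt, dg_pt, if_pos rfl]
    simp [ent, nch]
  | att a b iha ihb =>
    intro m
    rw [prod_att]
    have e1 := iha (1 + m)
    have e2 := ihb 1
    have e3 : ∀ x : a.V, (dg (.att a b) (Lv a b x) +
        if Lv a b x = (BT.att a b).root then m else 0) = dg a x + if x = a.root then 1 + m else 0 := by
      intro x
      rw [dg_L, root_att]
      by_cases hx : x = a.root
      · rw [hx, if_pos rfl, if_pos rfl, if_pos rfl]; ring
      · rw [if_neg hx, if_neg hx, if_neg (fun h => hx (Lv_inj.1 h))]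
    have e4 : ∀ y : b.V, (dg (.att a b) (Rv a b y) +
        if Rv a b y = (BT.att a b).root then m else 0) = dg b y + if y = b.root then 1 else 0 := by
      intro y
      rw [dg_R, root_att, if_neg Rv_ne_Lv, add_zero]
    simp only [e3, e4]
    rw [e1, e2]
    simp only [ent, nch]
    rw [show nch a + (1 + m) = nch a + 1 + m by ring]
    ring

theorem sum_dg (t : BT) : ∑ v, dg t v + 2 = 2 * t.size := by
  induction t with
  | pt =>
    rw [sum_pt, dg_pt]
    rfl
  | att a b iha ihb =>
    rw [sum_att]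
    simp only [dg_L, dg_R, Finset.sum_add_distrib, Finset.sum_ite_eq', Finset.mem_univ, if_true, BT.size]
    omega

theorem dg_pos (t : BT) (ht : t ≠ .pt) (v : t.V) : 1 ≤ dg t v := by
  induction t with
  | pt => exact absurd rfl ht
  | att a b iha ihb =>
    have hL : ∀ x, 1 ≤ dg (.att a b) (Lv a b x) := by
      intro x
      rw [dg_L]
      by_cases ha : a = .pt
      · subst ha
        rw [all_pt x, if_pos rfl]
        omega
      · have := iha ha x
        omega
    have hR : ∀ y, 1 ≤ dg (.att a b) (Rv a b y) := by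
      intro y
      rw [dg_R]
      by_cases hb : b = .pt
      · subst hb
        rw [all_pt y, if_pos rfl]
        omega
      · have := ihb hb y
        omega
    rcases v with x | y
    · exact hL x
    · exact hR y

end degrees

theorem card_V (t : BT) : Fintype.card t.V = t.size := by
  have h : ∀ t : BT, ∑ _v : t.V, 1 = t.size := by
    intro t
    induction t with
    | pt => rw [sum_pt]; rfl
    | att a b iha ihb => rw [sum_att, iha, ihb]; rfl
  rw [← h t]
  simp

/-! ### The case of large entropy -/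

theorem tot_pt {W : Type} [Fintype W] (G : SimpleGraph W) : tot G .pt = Fintype.card W := by
  unfold tot
  simp only [hv]
  simp

theorem large (h3 : S_pathUB) (h4 : S_entropy) (τ : BT) (h : 4 ^ τ.size ≤ entf τ) (t : BT) :
    tot (SimpleGraph.pathGraph (τ.size + 1)) t ≤ tot (BT.att .pt τ).graph t := by
  classical
  by_cases ht : t = .pt
  · subst ht
    rw [tot_pt, tot_pt, card_V]
    simp only [Fintype.card_fin, BT.size]
    omega
  have hne : BT.att .pt τ ≠ .pt := fun h => by cases h
  have hsum : ∑ v, (BT.att .pt τ).graph.degree v = 2 * τ.size := by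
    have := sum_dg (.att .pt τ)
    simp only [BT.size] at this
    have h2 : ∑ v, (BT.att .pt τ).graph.degree v = ∑ v, dg (.att .pt τ) v :=
      Finset.sum_congr rfl (fun v _ => by convert dg_eq (.att .pt τ) v)
    rw [h2]
    omega
  have hprod : ∏ v, (BT.att .pt τ).graph.degree v ^ (BT.att .pt τ).graph.degree v = entf τ := by
    have := prod_dg (.att .pt τ) 0
    simp only [ite_self, add_zero, nch, ent, one_mul] at this
    have h2 : ∏ v, (BT.att .pt τ).graph.degree v ^ (BT.att .pt τ).graph.degree v =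
        ∏ v, dg (.att .pt τ) v ^ dg (.att .pt τ) v :=
      Finset.prod_congr rfl (fun v _ => by
        have : (BT.att .pt τ).graph.degree v = dg (.att .pt τ) v := by convert dg_eq (.att .pt τ) v
        rw [this])
    rw [h2, this]
    simp [entf]
  have h5 := h4 _ (BT.att .pt τ).graph (fun v => by
    have := dg_pos (.att .pt τ) hne v
    have h6 : (BT.att .pt τ).graph.degree v = dg (.att .pt τ) v := by convert dg_eq (.att .pt τ) v
    rw [h6]
    exact this) (by
    rw [hsum, hprod, pow_mul]
    exact h) t ht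
  rw [hsum] at h5
  have hsz : 1 ≤ τ.size := by
    have : ∀ t : BT, 0 < t.size := by
      intro t
      induction t with
      | pt => exact Nat.one_pos
      | att a b iha _ => exact Nat.lt_of_lt_of_le iha (Nat.le_add_right _ _)
    exact this τ
  have h7 := h3 (τ.size + 1) (by omega) t ht
  rw [Nat.add_sub_cancel] at h7
  have h8 : 2 * τ.size * 2 ^ (t.size - 1) = 2 * (τ.size * 2 ^ (t.size - 1)) := by ring
  omega

/-! ### Trees with at most two branchings -/

/-- The path with `n` vertices has at most as many homomorphisms from `t` as `A`. -/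
def PL (n : ℕ) (A : BT) : Prop := ∀ t, tot (SimpleGraph.pathGraph n) t ≤ tot A.graph t

theorem PL.iso {n : ℕ} {A B : BT} (h : PL n A) (e : UIso A B) : PL n B := by
  intro t
  rw [← congr _ _ A.graph B.graph e t]
  exact h t

theorem PL.le {n : ℕ} {A B : BT} (h : PL n A) (e : ∀ t, tot A.graph t ≤ tot B.graph t) : PL n B :=
  fun t => (h t).trans (e t)

theorem PL_chain (k : ℕ) : PL (k + 1) (ch k .pt) := by
  intro t
  obtain ⟨e, _⟩ := chain_iso k
  exact (congr _ _ _ _ ⟨e⟩ t).ge

theorem n3_23 (A B C : BT) : RIso (N3 A B C) (N3 A C B) := RIso.swap (.att .pt A) B C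

theorem n3_12 (A B C : BT) : RIso (N3 A B C) (N3 B A C) := RIso.att (RIso.swap .pt A B) (RIso.refl C)

/-- One step: two arms `ch i pt`, `ch l pt` at a vertex whose third branch is `B`. -/
theorem step (h5 : S_foldE) (h6 : S_foldO) (n : ℕ) (B : BT) (i l : ℕ)
    (c1 : PL n (.att (ch l .pt) (ch (i + 2) B))) (c2 : PL n (.att (ch i .pt) (ch (l + 2) B)))
    (c3 : Even i → Even l → PL n (N3 (ch (l + i) B) .pt .pt)) : PL n (N3 B (ch i .pt) (ch l .pt)) := by
  rcases Nat.even_or_odd i with hi | hi
  · rcases Nat.even_or_odd l with hl | hl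
    · have c := c3 hi hl
      obtain ⟨p, hp⟩ := hi
      obtain ⟨q, hq⟩ := hl
      have f1 := h6 (ch i B) .pt q
      rw [show 2 * q = l by omega, ch_ch] at f1
      have f2 := h6 B (ch l .pt) p
      rw [show 2 * p = i by omega] at f2
      have g1 : PL n (N3 (ch i B) .pt (ch l .pt)) := (c.le f1).iso (n3_23 _ _ _).u
      exact g1.le f2
    · obtain ⟨q, hq⟩ := hl
      have f1 := h5 B (ch i .pt) q
      rw [show 2 * q + 3 = l + 2 by omega, show 2 * q + 1 = l by omega] at f1
      exact (c2.le f1).iso (n3_23 _ _ _).u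
  · obtain ⟨q, hq⟩ := hi
    have f1 := h5 B (ch l .pt) q
    rw [show 2 * q + 3 = i + 2 by omega, show 2 * q + 1 = i by omega] at f1
    exact c1.le f1

theorem spider (h5 : S_foldE) (h6 : S_foldO) (h9 : S_main) (i j l : ℕ) (h : 1 ≤ i + j + l) :
    PL (i + j + l + 4) (N3 (ch i .pt) (ch j .pt) (ch l .pt)) := by
  apply step h5 h6
  · rw [ch_ch]
    have := (PL_chain (l + (j + 2 + i) + 1)).iso (chain_path l (j + 2 + i)).symm
    rwa [show l + (j + 2 + i) + 1 + 1 = i + j + l + 4 by ring] at this
  · rw [ch_ch]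
    have := (PL_chain (j + (l + 2 + i) + 1)).iso (chain_path j (l + 2 + i)).symm
    rwa [show j + (l + 2 + i) + 1 + 1 = i + j + l + 4 by ring] at this
  · intro hj hl
    rw [ch_ch]
    rcases Nat.even_or_odd i with hi | hi
    · have he : Even (i + j + l) := (hi.add hj).add hl
      intro t
      rw [congr _ _ _ _ (dg_iso (l + j + i)) t]
      rw [show l + j + i + 4 = i + j + l + 4 by ring]
      obtain ⟨r, hr⟩ := he
      exact h9 (i + j + l + 4) (by omega) ⟨r + 2, by omega⟩ t
    · -- the long arm has an even number of vertices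
      obtain ⟨r, hr⟩ := hi
      obtain ⟨p, hp⟩ := hj
      obtain ⟨q, hq⟩ := hl
      have f1 := h5 .pt .pt (p + q + r)
      rw [show 2 * (p + q + r) + 3 = l + j + i + 2 by omega, show 2 * (p + q + r) + 1 = l + j + i by omega] at f1
      have c : PL (i + j + l + 4) (.att .pt (ch (l + j + i + 2) .pt)) := by
        have := PL_chain (l + j + i + 3)
        rwa [show l + j + i + 3 + 1 = i + j + l + 4 by ring] at this
      exact ((c.le f1).iso (n3_12 _ _ _).u)

/-- Two branchings. -/
theorem two_branch (h5 : S_foldE) (h6 : S_foldO) (h7 : S_dt) (h9 : S_main) (i l m j h : ℕ) :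
    PL (i + l + m + j + h + 6) (N3 (ch m (node2 (ch j .pt) (ch h .pt))) (ch i .pt) (ch l .pt)) := by
  have key : ∀ (X : BT) (a b c : ℕ), UIso (.att (ch a .pt) (ch b (ch c X))) (.att X (ch (b + c + a) .pt)) := by
    intro X a b c
    rw [ch_ch]
    have := UIso.path (b + c) (ch a .pt) X
    rwa [ch_ch] at this
  apply step h5 h6
  · refine PL.iso ?_ (key (node2 (ch j .pt) (ch h .pt)) l (i + 2) m).symm
    have := spider h5 h6 h9 j h (i + 2 + m + l) (by omega)
    rwa [show j + h + (i + 2 + m + l) + 4 = i + l + m + j + h + 6 by ring] at this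
  · refine PL.iso ?_ (key (node2 (ch j .pt) (ch h .pt)) i (l + 2) m).symm
    have := spider h5 h6 h9 j h (l + 2 + m + i) (by omega)
    rwa [show j + h + (l + 2 + m + i) + 4 = i + l + m + j + h + 6 by ring] at this
  · intro _ _
    rw [ch_ch]
    -- re-root at the other end
    have e1 : UIso (N3 (ch (l + i + m) (node2 (ch j .pt) (ch h .pt))) .pt .pt)
        (N3 (ch (l + i + m) (node2 .pt .pt)) (ch j .pt) (ch h .pt)) := by
      have a1 : RIso (N3 (ch (l + i + m) (node2 (ch j .pt) (ch h .pt))) .pt .pt)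
          (.att (node2 .pt .pt) (ch (l + i + m) (node2 (ch j .pt) (ch h .pt)))) :=
        RIso.trans (n3_12 _ _ _) (n3_23 _ _ _)
      have a2 := UIso.path (l + i + m) (node2 .pt .pt) (node2 (ch j .pt) (ch h .pt))
      have a3 : RIso (.att (node2 (ch j .pt) (ch h .pt)) (ch (l + i + m) (node2 .pt .pt)))
          (N3 (ch (l + i + m) (node2 .pt .pt)) (ch j .pt) (ch h .pt)) :=
        RIso.trans (n3_23 _ _ _) (n3_12 _ _ _)
      exact (a1.u.trans a2).trans a3.u
    refine PL.iso ?_ e1.symm
    apply step h5 h6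
    · refine PL.iso ?_ (key (node2 .pt .pt) h (j + 2) (l + i + m)).symm
      have := spider h5 h6 h9 0 0 (j + 2 + (l + i + m) + h) (by omega)
      rwa [show 0 + 0 + (j + 2 + (l + i + m) + h) + 4 = i + l + m + j + h + 6 by ring] at this
    · refine PL.iso ?_ (key (node2 .pt .pt) j (h + 2) (l + i + m)).symm
      have := spider h5 h6 h9 0 0 (h + 2 + (l + i + m) + j) (by omega)
      rwa [show 0 + 0 + (h + 2 + (l + i + m) + j) + 4 = i + l + m + j + h + 6 by ring] at this
    · intro _ _
      rw [ch_ch]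
      intro t
      have := h7 (h + j + (l + i + m)) t
      rwa [show h + j + (l + i + m) + 6 = i + l + m + j + h + 6 by ring] at this

theorem UIso.size {A B : BT} (h : UIso A B) : A.size = B.size := by
  obtain ⟨e⟩ := h
  rw [← card_V, ← card_V]
  exact Fintype.card_congr e.toEquiv

theorem size_ch (k : ℕ) (A : BT) : (ch k A).size = k + A.size := by
  induction k with
  | zero => simp [ch]
  | succ k ih =>
    show 1 + (ch k A).size = _
    rw [ih]
    ring

theorem red (h2 : S_rep) (h3 : S_pathUB) (h4 : S_entropy) (h5 : S_foldE) (h6 : S_foldO) (h7 : S_dt)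
    (h8 : S_class) (h9 : S_main) : S_red := by
  intro n hn T hT t
  -- a term for `T`, planted
  obtain ⟨τ, hτ⟩ : ∃ τ : BT, Nonempty ((BT.att .pt τ).graph ≃g T) := by
    obtain ⟨σ, e, _⟩ := h2 (Fin n) T hT ⟨0, by omega⟩
    cases σ with
    | pt =>
      exfalso
      have := Fintype.card_congr e.toEquiv
      rw [card_V, Fintype.card_fin] at this
      simp only [BT.size] at this
      omega
    | att a b =>
      obtain ⟨τ, ⟨f⟩⟩ := planted_aux b a
      exact ⟨τ, ⟨f.symm.trans e⟩⟩
  have hsize : τ.size + 1 = n := by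
    obtain ⟨e⟩ := hτ
    have := Fintype.card_congr e.toEquiv
    rw [card_V, Fintype.card_fin] at this
    simp only [BT.size] at this
    omega
  rw [← congr _ _ _ _ hτ t]
  suffices h : PL n (.att .pt τ) from h t
  have hre : ∀ (l : ℕ) (X : BT), UIso (.att .pt (ch l X)) (.att X (ch l .pt)) := fun l X => UIso.path l .pt X
  rcases h8 τ with h | ⟨k, h⟩ | ⟨l, i, j, h⟩ | ⟨l, i, l', j, h', h⟩
  · intro t
    rw [← hsize]
    exact large h3 h4 τ h t
  · have hs := (RIso.u h).size
    rw [size_ch] at hs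
    simp only [BT.size] at hs
    refine PL.iso ?_ (RIso.att (RIso.refl .pt) h).u.symm
    have := PL_chain (k + 1)
    rwa [show k + 1 + 1 = n by omega] at this
  · have hs := (RIso.u h).size
    simp only [size_ch, node2, BT.size] at hs
    refine PL.iso ?_ (RIso.att (RIso.refl .pt) h).u.symm
    refine PL.iso ?_ (hre l _).symm
    have := spider h5 h6 h9 i j l (by omega)
    rwa [show i + j + l + 4 = n by omega] at this
  · have hs := (RIso.u h).size
    simp only [size_ch, node2, BT.size] at hs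
    refine PL.iso ?_ (RIso.att (RIso.refl .pt) h).u.symm
    refine PL.iso ?_ (hre l _).symm
    have := two_branch h5 h6 h7 h9 i l l' j h'
    rw [show i + l + l' + j + h' + 6 = n by omega] at this
    exact this.iso (n3_12 _ _ _).u

end Pool.Agent.W106.HT
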