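import Pool.Agent.W106.HT.Main
import Pool.Agent.W106.HT.Red
import Pool.Agent.W272.HTREP
import Pool.Agent.W272.HTPUB
import Pool.Agent.W272.HTENT
import Pool.Agent.W272.HTLINK
import Pool.Agent.W272.HTDT
import Pool.Agent.W583.HT.H
import Pool.Agent.W583.HT.Tail
import Pool.Agent.W583.HT.Fin

/-!
Assembly (MP_9e5f8f_co).
-/

set_option autoImplicit false

namespace Pool.Agent.W106.HT

theorem all (h5 : S_foldE) (h6 : S_foldO) : ∀ n : ℕ, 5 ≤ n → ∀ T : SimpleGraph (Fin n), T.IsTree →
    ∀ m : ℕ, ∀ S : SimpleGraph (Fin m), S.IsTree →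
      Nat.card (S →g SimpleGraph.pathGraph n) ≤ Nat.card (S →g T) := by
  intro n hn T hT m S hS
  have hmain : S_main := main Pool.Agent.W272.HTLINK.link
    (Pool.Agent.W583.HT.fin Pool.Agent.W583.HT.tail Pool.Agent.W583.HT.headH)
  have hred : S_red := red Pool.Agent.W272.HTREP.rep Pool.Agent.W272.HTPUB.pathUB Pool.Agent.W272.HTENT.entropy
    h5 h6 (Pool.Agent.W272.HTDT.dt Pool.Agent.W272.HTPUB.pathUB2) Pool.Agent.W272.HTCLASS.classify hmain
  obtain ⟨r⟩ := hS.connected.nonempty
  obtain ⟨t, e, _⟩ := Pool.Agent.W272.HTREP.rep (Fin m) S hS r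
  have key : ∀ G : SimpleGraph (Fin n), Nat.card (S →g G) = tot G t := by
    intro G
    rw [← card (Fin n) G t]
    apply Nat.card_congr
    exact {
      toFun := fun f => f.comp e.toHom
      invFun := fun g => g.comp e.symm.toHom
      left_inv := fun f => by
        apply DFunLike.ext
        intro v
        exact congrArg f (e.apply_symm_apply v)
      right_inv := fun g => by
        apply DFunLike.ext
        intro v
        exact congrArg g (e.symm_apply_apply v) }
  rw [key, key]
  exact hred n hn T hT t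

end Pool.Agent.W106.HT
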