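import Pool.Agent.W106.HT.Stm

/-!
`S_af` (MP_9e5f8f_co).
-/

set_option autoImplicit false

namespace Pool.Agent.W106.HT

open Finset

theorem af_pt (n : ℕ) (hn : 6 ≤ n) : AF n (vA n .pt) where
  pos i h1 h2 := by simp [vA, h1, h2]
  zero := by simp [vA]
  zero' i hi := by
    have : ¬ (i ≤ n) := by omega
    simp [vA, this]
  sym i h1 h2 := by
    have h3 : 1 ≤ n + 1 - i := by omega
    have h4 : n + 1 - i ≤ n := by omega
    simp only [vA, h1, h2, h3, h4, and_self, if_true]
  mono i h1 h2 := by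
    have h3 : i ≤ n := by omega
    have h4 : 1 ≤ i + 1 := by omega
    have h5 : i + 1 ≤ n := by omega
    simp only [vA, h1, h3, h4, h5, and_self, if_true, le_refl]
  L p q h1 h2 h3 _ := by
    have h4 : p ≤ n := by omega
    have h5 : 1 ≤ q := by omega
    have h6 : 1 ≤ p + 1 := by omega
    have h7 : p + 1 ≤ n := by omega
    have h8 : 1 ≤ q - 1 := by omega
    have h9 : q - 1 ≤ n := by omega
    simp only [vA, h1, h3, h4, h5, h6, h7, h8, h9, and_self, if_true, le_refl]

theorem AF.nonneg {n : ℕ} {a : ℕ → ℝ} (h : AF n a) (i : ℕ) : 0 ≤ a i := by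
  rcases Nat.eq_zero_or_pos i with rfl | hi
  · rw [h.zero]
  · by_cases h2 : i ≤ n
    · exact (h.pos i hi h2).le
    · rw [h.zero' i (by omega)]

theorem AF.mul {n : ℕ} {a b : ℕ → ℝ} (ha : AF n a) (hb : AF n b) : AF n (fun i => a i * b i) where
  pos i h1 h2 := mul_pos (ha.pos i h1 h2) (hb.pos i h1 h2)
  zero := by simp [ha.zero]
  zero' i hi := by simp [ha.zero' i hi]
  sym i h1 h2 := by simp only [ha.sym i h1 h2, hb.sym i h1 h2]
  mono i h1 h2 := mul_le_mul (ha.mono i h1 h2) (hb.mono i h1 h2) (hb.nonneg _) (ha.nonneg _)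
  L p q h1 h2 h3 h4 := by
    have e1 := ha.L p q h1 h2 h3 h4
    have e2 := hb.L p q h1 h2 h3 h4
    calc a p * b p * (a q * b q) = (a p * a q) * (b p * b q) := by ring
      _ ≤ (a (p + 1) * a (q - 1)) * (b (p + 1) * b (q - 1)) :=
        mul_le_mul e1 e2 (mul_nonneg (hb.nonneg _) (hb.nonneg _)) (mul_nonneg (ha.nonneg _) (ha.nonneg _))
      _ = _ := by ring

/-- `L` in an extended range. -/
theorem AF.L' {n : ℕ} {a : ℕ → ℝ} (ha : AF n a) (p q : ℕ) (h2 : p + 1 ≤ q) (h4 : Odd (q - p)) :
    a p * a q ≤ a (p + 1) * a (q - 1) := by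
  by_cases h5 : q = p + 1
  · subst h5
    rw [show p + 1 - 1 = p by omega, mul_comm]
  have h6 : p + 3 ≤ q := by
    obtain ⟨r, hr⟩ := h4
    omega
  rcases Nat.eq_zero_or_pos p with rfl | hp
  · rw [ha.zero, zero_mul]
    exact mul_nonneg (ha.nonneg _) (ha.nonneg _)
  · by_cases h7 : q ≤ n
    · exact ha.L p q hp h6 h7 h4
    · rw [ha.zero' q (by omega), mul_zero]
      exact mul_nonneg (ha.nonneg _) (ha.nonneg _)

theorem plA_eq {n : ℕ} {a : ℕ → ℝ} {i : ℕ} (h1 : 1 ≤ i) (h2 : i ≤ n) : plA n a i = a (i - 1) + a (i + 1) := by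
  simp [plA, h1, h2]

/-- The symmetry for the extended range. -/
theorem AF.sym' {n : ℕ} {a : ℕ → ℝ} (ha : AF n a) (i j : ℕ) (h : i + j = n + 1) : a i = a j := by
  rcases Nat.eq_zero_or_pos i with rfl | hi
  · rw [ha.zero, ha.zero' j (by omega)]
  · by_cases h2 : i ≤ n
    · rw [← ha.sym i hi h2]
      congr 1
      omega
    · rw [ha.zero' i (by omega)]
      rw [show j = 0 by omega, ha.zero]

theorem AF.plant {n : ℕ} (hn : 6 ≤ n) (he : Even n) {a : ℕ → ℝ} (ha : AF n a) : AF n (plA n a) where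
  pos i h1 h2 := by
    rw [plA_eq h1 h2]
    by_cases h3 : i = 1
    · subst h3
      have := ha.pos 2 (by omega) (by omega)
      have := ha.nonneg 0
      simp only [Nat.sub_self, Nat.reduceAdd]
      linarith
    · have := ha.pos (i - 1) (by omega) (by omega)
      have := ha.nonneg (i + 1)
      linarith
  zero := by simp [plA]
  zero' i hi := by
    have : ¬ (i ≤ n) := by omega
    simp [plA, this]
  sym i h1 h2 := by
    rw [plA_eq h1 h2, plA_eq (by omega) (by omega), ha.sym' (n + 1 - i - 1) (i + 1) (by omega),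
      ha.sym' (n + 1 - i + 1) (i - 1) (by omega), add_comm]
  mono i h1 h2 := by
    rw [plA_eq h1 (by omega), plA_eq (by omega) (by omega), show i + 1 - 1 = i by omega]
    have e1 : a (i - 1) ≤ a i := by
      by_cases h3 : i = 1
      · subst h3
        simp only [Nat.sub_self, ha.zero]
        exact ha.nonneg _
      · have := ha.mono (i - 1) (by omega) (by omega)
        rwa [show i - 1 + 1 = i by omega] at this
    have e2 : a (i + 1) ≤ a (i + 1 + 1) := by
      by_cases h3 : 2 * (i + 1 + 1) ≤ n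
      · exact ha.mono (i + 1) (by omega) h3
      · have h4 : (i + 1) + (i + 1 + 1) = n + 1 := by
          obtain ⟨r, hr⟩ := he
          omega
        rw [ha.sym' _ _ h4]
    linarith
  L p q h1 h2 h3 h4 := by
    rw [plA_eq h1 (by omega), plA_eq (by omega) h3, plA_eq (by omega) (by omega), plA_eq (by omega) (by omega)]
    rw [show p + 1 - 1 = p by omega, show q - 1 + 1 = q by omega]
    have hd : ∀ x y : ℕ, x + y = q - p → Odd x → True := fun _ _ _ _ => trivial
    have e1 := ha.L' (p - 1) (q - 1) (by omega) (by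
      rw [show q - 1 - (p - 1) = q - p by omega]; exact h4)
    have e2 := ha.L' (p - 1) (q + 1) (by omega) (by
      rw [show q + 1 - (p - 1) = q - p + 2 by omega]
      exact h4.add_even (by decide))
    have e3 := ha.L' (p + 1) (q - 1) (by omega) (by
      obtain ⟨r, hr⟩ := h4
      exact ⟨r - 1, by omega⟩)
    have e4 := ha.L' (p + 1) (q + 1) (by omega) (by
      rw [show q + 1 - (p + 1) = q - p by omega]; exact h4)
    rw [show p - 1 + 1 = p by omega] at e1 e2
    rw [show q + 1 - 1 = q by omega] at e2 e4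
    nlinarith [e1, e2, e3, e4]

theorem df_pt (n : ℕ) : DF n (vD n .pt) where
  pos i h1 h2 := by simp [vD, h1, h2]
  zero := by simp [vD]
  zero' i hi := by
    have : ¬ (i ≤ n - 1) := by omega
    simp [vD, this]

theorem DF.mul {n : ℕ} {a b : ℕ → ℝ} (ha : DF n a) (hb : DF n b) : DF n (fun i => a i * b i) where
  pos i h1 h2 := mul_pos (ha.pos i h1 h2) (hb.pos i h1 h2)
  zero := by simp [ha.zero]
  zero' i hi := by simp [ha.zero' i hi]

theorem DF.nonneg {n : ℕ} {a : ℕ → ℝ} (h : DF n a) (i : ℕ) : 0 ≤ a i := by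
  rcases Nat.eq_zero_or_pos i with rfl | hi
  · rw [h.zero]
  · by_cases h2 : i ≤ n - 1
    · exact (h.pos i hi h2).le
    · rw [h.zero' i (by omega)]

theorem DF.plant {n : ℕ} (hn : 6 ≤ n) {a : ℕ → ℝ} (ha : DF n a) : DF n (plD n a) where
  pos j h1 h2 := by
    unfold plD
    rw [if_neg (by omega)]
    split_ifs with h3 h4
    · exact ha.pos 2 (by omega) (by omega)
    · have := ha.pos 1 (by omega) (by omega)
      have := ha.pos 3 (by omega) (by omega)
      linarith
    · have := ha.pos (j - 1) (by omega) (by omega)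
      have := ha.nonneg (j + 1)
      linarith
  zero := by simp [plD]
  zero' j hj := by
    unfold plD
    rw [if_neg (by omega), if_neg (by omega), if_neg (by omega), if_neg (by omega)]

theorem af : S_af := fun n hn he =>
  ⟨af_pt n hn, fun _ _ ha hb => ha.mul hb, fun _ ha => ha.plant hn he,
   df_pt n, fun _ _ ha hb => ha.mul hb, fun _ ha => ha.plant hn⟩

end Pool.Agent.W106.HT
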