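import Pool.Agent.W106.HT.Stm

/-!
`S_congr`, `S_card` (MP_9e5f8f_co).
-/

set_option autoImplicit false

namespace Pool.Agent.W106.HT

open Finset

theorem hv_congr {W W' : Type} [Fintype W] [Fintype W'] (G : SimpleGraph W) (G' : SimpleGraph W')
    (e : G ≃g G') (t : BT) : ∀ x, hv G t x = hv G' t (e x) := by
  classical
  induction t with
  | pt => intro x; rfl
  | att a b iha ihb =>
    intro x
    simp only [hv]
    rw [iha x]
    congr 1
    apply Fintype.sum_equiv e.toEquiv
    intro y
    have h : G'.Adj (e x) (e.toEquiv y) ↔ G.Adj x y := e.map_rel_iff'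
    by_cases hxy : G.Adj x y
    · rw [if_pos hxy, if_pos (h.2 hxy), ihb y]; rfl
    · rw [if_neg hxy, if_neg (fun h' => hxy (h.1 h'))]

theorem congr : S_congr := by
  intro W W' _ _ G G' he t
  obtain ⟨e⟩ := he
  unfold tot
  apply Fintype.sum_equiv e.toEquiv
  intro x
  exact hv_congr G G' e t x

/-- Homomorphisms with a given image of the root. -/
abbrev HomAt {W : Type} (G : SimpleGraph W) (t : BT) (x : W) : Type := {f : t.graph →g G // f t.root = x}

def homAtAtt {W : Type} (G : SimpleGraph W) (a b : BT) (x : W) :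
    HomAt G (.att a b) x ≃ HomAt G a x × (Σ y : {y : W // G.Adj x y}, HomAt G b y.1) where
  toFun f :=
    (⟨⟨fun v => f.1 (Sum.inl v), fun {u v} h => f.1.map_rel' (a := Sum.inl u) (b := Sum.inl v) h⟩, f.2⟩,
     ⟨⟨f.1 (Sum.inr b.root), by
        have h := f.1.map_rel' (a := (Sum.inl a.root : (BT.att a b).V)) (b := Sum.inr b.root) ⟨rfl, rfl⟩
        have h2 : f.1 (Sum.inl a.root) = x := f.2
        exact (congrArg (fun z => G.Adj z (f.1 (Sum.inr b.root))) h2).mp h⟩,
      ⟨⟨fun v => f.1 (Sum.inr v), fun {u v} h => f.1.map_rel' (a := Sum.inr u) (b := Sum.inr v) h⟩, rfl⟩⟩)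
  invFun p :=
    ⟨⟨fun v => Sum.elim p.1.1 p.2.2.1 v, by
      intro u v h
      cases u with
      | inl u =>
        cases v with
        | inl v => exact p.1.1.map_rel' h
        | inr v =>
          obtain ⟨rfl, rfl⟩ := h
          show G.Adj (p.1.1 a.root) (p.2.2.1 b.root)
          rw [p.1.2, p.2.2.2]
          exact p.2.1.2
      | inr u =>
        cases v with
        | inl v =>
          obtain ⟨rfl, rfl⟩ := h
          show G.Adj (p.2.2.1 b.root) (p.1.1 a.root)
          rw [p.1.2, p.2.2.2]
          exact p.2.1.2.symm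
        | inr v => exact p.2.2.1.map_rel' h⟩, p.1.2⟩
  left_inv f := by
    apply Subtype.ext
    apply DFunLike.ext
    intro v
    cases v <;> rfl
  right_inv p := by
    obtain ⟨⟨f, hf⟩, ⟨y, hy⟩, ⟨g, hg⟩⟩ := p
    change g b.root = y at hg
    subst hg
    rfl

theorem hv_eq {W : Type} [Fintype W] (G : SimpleGraph W) (t : BT) : ∀ x, Nat.card (HomAt G t x) = hv G t x := by
  classical
  induction t with
  | pt =>
    intro x
    simp only [hv]
    rw [Nat.card_eq_one_iff_unique]
    refine ⟨⟨fun f g => ?_⟩, ⟨⟨⟨fun _ => x, fun {u v} h => False.elim h⟩, rfl⟩⟩⟩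
    apply Subtype.ext
    apply DFunLike.ext
    intro v
    have h1 : f.1 v = x := f.2
    have h2 : g.1 v = x := g.2
    rw [h1, h2]
  | att a b iha ihb =>
    intro x
    rw [Nat.card_congr (homAtAtt G a b x), Nat.card_prod, iha x]
    simp only [hv]
    congr 1
    have : ∀ y : {y : W // G.Adj x y}, Finite (HomAt G b y.1) := fun y => by
      unfold HomAt
      have : Finite (b.graph →g G) := by
        apply Finite.of_injective (fun f : b.graph →g G => (f : b.V → W))
        exact DFunLike.coe_injective
      infer_instance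
    rw [Nat.card_sigma]
    rw [← Finset.sum_filter]
    rw [← Finset.sum_coe_sort (Finset.univ.filter (fun y => G.Adj x y)) (fun y => hv G b y)]
    apply Fintype.sum_equiv (Equiv.subtypeEquivRight (by intro y; simp))
    intro y
    exact ihb y.1

theorem card : S_card := by
  classical
  intro W _ G t
  unfold tot
  have h : Nat.card (t.graph →g G) = Nat.card (Σ x : W, HomAt G t x) := by
    apply Nat.card_congr
    exact (Equiv.sigmaFiberEquiv (fun f : t.graph →g G => f t.root)).symm
  have : ∀ x : W, Finite (HomAt G t x) := fun x => by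
    unfold HomAt
    have : Finite (t.graph →g G) := by
      apply Finite.of_injective (fun f : t.graph →g G => (f : t.V → W))
      exact DFunLike.coe_injective
    infer_instance
  rw [h, Nat.card_sigma]
  apply Finset.sum_congr rfl
  intro x _
  exact hv_eq G t x

end Pool.Agent.W106.HT
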