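import Mathlib

/-!
Homomorphism counts from trees (MP_9e5f8f_co): basic definitions.

`BT` is a syntax for rooted trees (`att a b` = `a` with the root of `b` attached as a new child of the root of `a`),
`BT.graph` the corresponding graph, `hv G t x` the number of homomorphisms `t → G` which send the root to `x`,
`tot G t` the number of all homomorphisms.
-/

set_option autoImplicit false

namespace Pool.Agent.W106.HT

open Finset

/-- Rooted trees: a point, or `a` with one more branch `b` at the root. -/
inductive BT : Type
  | pt : BT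
  | att : BT → BT → BT

namespace BT

/-- The vertices. -/
def V : BT → Type
  | pt => Unit
  | att a b => a.V ⊕ b.V

/-- The root. -/
def root : (t : BT) → t.V
  | pt => ()
  | att a _ => Sum.inl a.root

instance instFintypeV : (t : BT) → Fintype t.V
  | pt => inferInstanceAs (Fintype Unit)
  | att a b =>
    haveI := instFintypeV a
    haveI := instFintypeV b
    inferInstanceAs (Fintype (a.V ⊕ b.V))

instance instDecidableEqV : (t : BT) → DecidableEq t.V
  | pt => inferInstanceAs (DecidableEq Unit)
  | att a b =>
    haveI := instDecidableEqV a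
    haveI := instDecidableEqV b
    inferInstanceAs (DecidableEq (a.V ⊕ b.V))

/-- The adjacency relation. -/
def Adj : (t : BT) → t.V → t.V → Prop
  | pt => fun _ _ => False
  | att a b => fun
    | Sum.inl x, Sum.inl y => a.Adj x y
    | Sum.inr x, Sum.inr y => b.Adj x y
    | Sum.inl x, Sum.inr y => x = a.root ∧ y = b.root
    | Sum.inr x, Sum.inl y => x = b.root ∧ y = a.root

theorem Adj.symm : ∀ (t : BT) (x y : t.V), t.Adj x y → t.Adj y x
  | pt, _, _, h => h
  | att a _, Sum.inl x, Sum.inl y, h => Adj.symm a x y h
  | att _ b, Sum.inr x, Sum.inr y, h => Adj.symm b x y h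
  | att _ _, Sum.inl _, Sum.inr _, h => ⟨h.2, h.1⟩
  | att _ _, Sum.inr _, Sum.inl _, h => ⟨h.2, h.1⟩

theorem Adj.irrefl : ∀ (t : BT) (x : t.V), ¬ t.Adj x x
  | pt, _, h => h
  | att a _, Sum.inl x, h => Adj.irrefl a x h
  | att _ b, Sum.inr x, h => Adj.irrefl b x h

/-- The graph of a term. -/
def graph (t : BT) : SimpleGraph t.V where
  Adj := t.Adj
  symm := ⟨fun x y h => Adj.symm t x y h⟩
  loopless := ⟨fun x h => Adj.irrefl t x h⟩

/-- The number of vertices. -/
def size : BT → ℕ
  | pt => 1
  | att a b => a.size + b.size

end BT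

open Classical in
/-- `hv G t x` is the number of homomorphisms from the graph of `t` to `G` which send the root to `x`. -/
noncomputable def hv {W : Type} [Fintype W] (G : SimpleGraph W) : BT → W → ℕ
  | .pt, _ => 1
  | .att a b, x => hv G a x * ∑ y, if G.Adj x y then hv G b y else 0

/-- The number of homomorphisms from the graph of `t` to `G`. -/
noncomputable def tot {W : Type} [Fintype W] (G : SimpleGraph W) (t : BT) : ℕ := ∑ x, hv G t x

/-- The tree `D_n` (`n ≥ 4`): the path `2, 3, ..., n - 1` and two more leaves `0`, `1` at the vertex `2`. -/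
def Dg (n : ℕ) : SimpleGraph (Fin n) :=
  SimpleGraph.fromRel fun i j =>
    (i.val = 0 ∧ j.val = 2) ∨ (i.val = 1 ∧ j.val = 2) ∨ (2 ≤ i.val ∧ j.val = i.val + 1)

end Pool.Agent.W106.HT
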