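import Pool.Agent.W106.HT.AFp

/-!
`S_prod` (MP_9e5f8f_co): products of good vectors are good.
-/

set_option autoImplicit false

namespace Pool.Agent.W106.HT

open Finset

/-- Normalised form of the product step. -/
theorem prod_core (s1 s2 r1 r2 t1 t2 e1 e2 : ℝ) (hs1 : 0 ≤ s1) (hs2 : 0 ≤ s2) (hs1' : s1 ≤ 1 / 2)
    (hs2' : s2 ≤ 1 / 2) (ht1 : 1 ≤ t1) (ht2 : 1 ≤ t2) (hr1 : r1 = s1 * t1) (hr2 : r2 = s2 * t2)
    (hr1' : r1 ≤ 1) (hr2' : r2 ≤ 1) (he1 : 0 ≤ e1) (he2 : 0 ≤ e2) (hz1 : s1 + r1 - 1 ≤ 2 * e1)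
    (hz2 : s2 + r2 - 1 ≤ 2 * e2) :
    s1 * s2 + r1 * r2 - 1 ≤ e1 * t2 + e2 * t1 + e1 * e2 := by
  have key : ∀ s r t e t' r' s' : ℝ, 0 ≤ e → s + r - 1 ≤ 2 * e → 1 ≤ t' → s' ≤ 1 / 2 → r' = s' * t' →
      0 ≤ s' → (s + r - 1) * r' ≤ e * t' := by
    intro s r t e t' r' s' he hz ht' hs' hr' hs0
    have h1 : 2 * r' ≤ t' := by rw [hr']; nlinarith
    have h0 : 0 ≤ r' := by rw [hr']; exact mul_nonneg hs0 (by linarith)
    by_cases hzz : 0 ≤ s + r - 1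
    · nlinarith
    · have : (s + r - 1) * r' ≤ 0 := mul_nonpos_of_nonpos_of_nonneg (by linarith) h0
      have : 0 ≤ e * t' := mul_nonneg he (by linarith)
      linarith
  have k1 := key s1 r1 t1 e1 t2 r2 s2 he1 hz1 ht2 hs2' hr2 hs2
  have k2 := key s2 r2 t2 e2 t1 r1 s1 he2 hz2 ht1 hs1' hr1 hs1
  have k3 : 0 ≤ e1 * e2 := mul_nonneg he1 he2
  have k4 : s2 ≤ r2 := by rw [hr2]; nlinarith
  have k5 : s1 ≤ r1 := by rw [hr1]; nlinarith
  nlinarith [mul_nonneg (sub_nonneg.2 hr1') (sub_nonneg.2 hr2'), mul_nonneg hs1 (sub_nonneg.2 k4),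
    mul_nonneg hs2 (sub_nonneg.2 k5), mul_nonneg hs2 hs1]

/-- The full star inequality for a product. -/
theorem full_star {n : ℕ} (hn : 6 ≤ n) (he : Even n) {a d a' d' : ℕ → ℝ} (ha : AF n a) (ha' : AF n a')
    (hg : Good n a d) (hg' : Good n a' d') :
    (a 1 * a' 1) * (a 2 * a' 2) + (a 1 * a' 1) * (a 4 * a' 4) - (a 2 * a' 2) * (a 3 * a' 3) ≤
      (d 2 * d' 2) * (d 3 * d' 3) - (a 3 * a' 3) * (a 4 * a' 4) := by
  have mk : ∀ b c : ℕ → ℝ, AF n b → Good n b c → ∃ s r t e : ℝ, 0 ≤ s ∧ s ≤ 1 / 2 ∧ 1 ≤ t ∧ r = s * t ∧ r ≤ 1 ∧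
      0 ≤ e ∧ s + r - 1 ≤ 2 * e ∧ b 1 = s * b 3 ∧ b 4 = t * b 2 ∧ c 2 * c 3 - b 3 * b 4 = e * (b 2 * b 3) ∧
      0 < b 2 ∧ 0 < b 3 := by
    intro b c hb hc
    have p1 := hb.pos 1 (by omega) (by omega)
    have p2 := hb.pos 2 (by omega) (by omega)
    have p3 := hb.pos 3 (by omega) (by omega)
    have p4 := hb.pos 4 (by omega) (by omega)
    have p23 : 0 < b 2 * b 3 := mul_pos p2 p3
    have m24 : b 2 ≤ b 4 := by
      by_cases h : 8 ≤ n
      · exact (hb.mono 2 (by omega) (by omega)).trans (hb.mono 3 (by omega) (by omega))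
      · have h6 : n = 6 := by
          obtain ⟨r, hr⟩ := he
          omega
        subst h6
        rw [hb.sym' 4 3 (by omega)]
        exact hb.mono 2 (by omega) (by omega)
    have hL : b 1 * b 4 ≤ b 2 * b 3 := hb.L 1 4 (by omega) (by omega) (by omega) (by decide)
    refine ⟨b 1 / b 3, b 1 * b 4 / (b 2 * b 3), b 4 / b 2, (c 2 * c 3 - b 3 * b 4) / (b 2 * b 3), by positivity,
      ?_, ?_, ?_, ?_, ?_, ?_, ?_, ?_, ?_, p2, p3⟩
    · rw [div_le_div_iff₀ p3 (by norm_num)]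
      linarith [hc.half]
    · rw [le_div_iff₀ p2]; linarith
    · field_simp
    · rw [div_le_one p23]; exact hL
    · apply div_nonneg _ p23.le
      have := hc.V 2 (by omega) (by omega)
      simp only [Nat.reduceAdd] at this
      linarith
    · have e1 : b 1 / b 3 + b 1 * b 4 / (b 2 * b 3) - 1 = (b 1 * b 2 + b 1 * b 4 - b 2 * b 3) / (b 2 * b 3) := by
        field_simp
      rw [e1, ← mul_div_assoc]
      apply div_le_div_of_nonneg_right _ p23.le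
      exact hc.star
    · field_simp
    · field_simp
    · field_simp
  obtain ⟨s, r, t, e, h1, h2, h3, h4, h5, h6, h7, h8, h9, h10, h11, h12⟩ := mk a d ha hg
  obtain ⟨s', r', t', e', h1', h2', h3', h4', h5', h6', h7', h8', h9', h10', h11', h12'⟩ := mk a' d' ha' hg'
  have hc := prod_core s s' r r' t t' e e' h1 h1' h2 h2' h3 h3' h4 h4' h5 h5' h6 h6' h7 h7'
  have hd : d 2 * d 3 = e * (a 2 * a 3) + a 3 * (t * a 2) := by rw [← h10, h9]; ring
  have hd' : d' 2 * d' 3 = e' * (a' 2 * a' 3) + a' 3 * (t' * a' 2) := by rw [← h10', h9']; ring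
  have hpos : 0 < (a 2 * a 3) * (a' 2 * a' 3) := by positivity
  have hm := mul_le_mul_of_nonneg_right hc hpos.le
  have l1 : (a 1 * a' 1) * (a 2 * a' 2) + (a 1 * a' 1) * (a 4 * a' 4) - (a 2 * a' 2) * (a 3 * a' 3) =
      (s * s' + r * r' - 1) * ((a 2 * a 3) * (a' 2 * a' 3)) := by
    rw [h8, h8', h9, h9', h4, h4']; ring
  have l2 : (d 2 * d' 2) * (d 3 * d' 3) - (a 3 * a' 3) * (a 4 * a' 4) =
      (e * t' + e' * t + e * e') * ((a 2 * a 3) * (a' 2 * a' 3)) := by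
    have : (d 2 * d' 2) * (d 3 * d' 3) = (d 2 * d 3) * (d' 2 * d' 3) := by ring
    rw [this, hd, hd', h9, h9']; ring
  rw [l1, l2]
  exact hm

theorem prod : S_prod := by
  intro n hn he a d a' d' ha hd ha' hd' hg hg'
  have hfs := full_star hn he ha ha' hg hg'
  have hV : VV n (fun i => a i * a' i) (fun i => d i * d' i) := by
    intro j h1 h2
    have e1 := hg.V j h1 h2
    have e2 := hg'.V j h1 h2
    calc a (j + 1) * a' (j + 1) * (a (j + 2) * a' (j + 2)) = (a (j + 1) * a (j + 2)) * (a' (j + 1) * a' (j + 2)) := by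
          ring
      _ ≤ (d j * d (j + 1)) * (d' j * d' (j + 1)) :=
        mul_le_mul e1 e2 (mul_nonneg (ha'.nonneg _) (ha'.nonneg _)) (mul_nonneg (hd.nonneg _) (hd.nonneg _))
      _ = _ := by ring
  have hA : (a 2 * a' 2) * (a 3 * a' 3) ≤ (d 1 * d' 1) * (d 2 * d' 2) := by
    calc (a 2 * a' 2) * (a 3 * a' 3) = (a 2 * a 3) * (a' 2 * a' 3) := by ring
      _ ≤ (d 1 * d 2) * (d' 1 * d' 2) :=
        mul_le_mul hg.A hg'.A (mul_nonneg (ha'.nonneg _) (ha'.nonneg _)) (mul_nonneg (hd.nonneg _) (hd.nonneg _))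
      _ = _ := by ring
  have hV2 := hV 2 (by omega) (by omega)
  simp only [Nat.reduceAdd] at hV2
  refine ⟨hA, hV, ?_, ?_, ?_⟩
  · have h13 : a' 1 ≤ a' 3 := by
      have := ha'.nonneg 1
      linarith [hg'.half]
    have := mul_le_mul hg.half h13 (ha'.nonneg 1) (ha.nonneg 3)
    linarith
  · linarith
  · nlinarith [hfs, hA]

end Pool.Agent.W106.HT
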