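import Pool.Agent.W106.HT.Plant
import Pool.Agent.W106.HT.Prod

/-!
`S_root`, and `S_main` from `S_link` and `S_fin` (MP_9e5f8f_co).
-/

set_option autoImplicit false

namespace Pool.Agent.W106.HT

open Finset

/-! ### Re-rooting of the source -/

/-- The same number of homomorphisms to every graph. -/
def Eqv (t t' : BT) : Prop := ∀ (W : Type) [Fintype W] (G : SimpleGraph W), tot G t = tot G t'

/-- The same vectors. -/
def REqv (t t' : BT) : Prop := ∀ (W : Type) [Fintype W] (G : SimpleGraph W) (x : W), hv G t x = hv G t' x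

theorem REqv.refl (t : BT) : REqv t t := fun _ _ _ _ => rfl

theorem REqv.trans {a b c : BT} (h : REqv a b) (h' : REqv b c) : REqv a c :=
  fun W _ G x => (h W G x).trans (h' W G x)

theorem REqv.att {a a' b b' : BT} (h : REqv a a') (h' : REqv b b') : REqv (.att a b) (.att a' b') := by
  classical
  intro W _ G x
  simp only [hv]
  rw [h W G x]
  congr 1
  apply Finset.sum_congr rfl
  intro y _
  rw [h' W G y]

theorem REqv.comm (a b c : BT) : REqv (.att (.att a b) c) (.att (.att a c) b) := by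
  intro W _ G x
  simp only [hv]
  ring

theorem REqv.eqv {a b : BT} (h : REqv a b) : Eqv a b := fun W _ G => Finset.sum_congr rfl (fun x _ => h W G x)

theorem Eqv.trans {a b c : BT} (h : Eqv a b) (h' : Eqv b c) : Eqv a c :=
  fun W _ G => (h W G).trans (h' W G)

theorem Eqv.swap (a b : BT) : Eqv (.att a b) (.att b a) := by
  classical
  intro W _ G
  unfold tot
  simp only [hv, Finset.mul_sum]
  rw [Finset.sum_comm]
  apply Finset.sum_congr rfl
  intro x _
  apply Finset.sum_congr rfl
  intro y _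
  by_cases h : G.Adj x y
  · rw [if_pos h, if_pos h.symm, mul_comm]
  · rw [if_neg h, if_neg (fun h' => h h'.symm), mul_zero, mul_zero]

/-- The root has only leaves as children, or a child which is not a leaf. -/
theorem split (b : BT) : (∃ k, (b ≠ .pt → 1 ≤ k) ∧ REqv b (lv k .pt)) ∨ (∃ b' c, c ≠ .pt ∧ c.size < b.size ∧ REqv b (.att b' c)) := by
  induction b with
  | pt => exact Or.inl ⟨0, fun h => absurd rfl h, REqv.refl _⟩
  | att b1 b2 ih1 _ =>
    have hpos : ∀ t : BT, 0 < t.size := by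
      intro t
      induction t with
      | pt => exact Nat.one_pos
      | att a b iha _ => exact Nat.lt_of_lt_of_le iha (Nat.le_add_right _ _)
    by_cases h2 : b2 = .pt
    · subst h2
      rcases ih1 with ⟨k, _, hk⟩ | ⟨b', c, hc, hs, h⟩
      · exact Or.inl ⟨k + 1, fun _ => Nat.succ_pos k, hk.att (REqv.refl _)⟩
      · refine Or.inr ⟨.att b' .pt, c, hc, ?_, (h.att (REqv.refl _)).trans (REqv.comm _ _ _)⟩
        simp only [BT.size]
        omega
    · refine Or.inr ⟨b1, b2, h2, ?_, REqv.refl _⟩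
      simp only [BT.size]
      have := hpos b1
      omega

/-- `att (lv k pt) a` is `lv k (att pt a)`. -/
theorem lv_att (k : ℕ) (u a : BT) : REqv (.att (lv k u) a) (lv k (.att u a)) := by
  induction k with
  | zero => exact REqv.refl _
  | succ k ih => exact (REqv.comm _ _ _).trans (ih.att (REqv.refl _))

theorem root_aux : ∀ (s : ℕ) (a b : BT), b.size ≤ s → b ≠ .pt →
    (∃ k, Eqv (.att a b) (lv k .pt)) ∨ (∃ k w, 1 ≤ k ∧ w ≠ .pt ∧ Eqv (.att a b) (lv k (.att .pt w))) := by
  intro s
  induction s with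
  | zero =>
    intro a b hb hb'
    exfalso
    cases b with
    | pt => exact hb' rfl
    | att b1 b2 =>
      have hpos : ∀ t : BT, 0 < t.size := by
        intro t
        induction t with
        | pt => exact Nat.one_pos
        | att a b iha _ => exact Nat.lt_of_lt_of_le iha (Nat.le_add_right _ _)
      have := hpos (.att b1 b2)
      omega
  | succ s ih =>
    intro a b hb hb'
    rcases split b with ⟨k, hk0, hk⟩ | ⟨b', c, hc, hs, h⟩
    · have h1 : Eqv (.att a b) (lv k (.att .pt a)) :=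
        ((((REqv.refl a).att hk).eqv).trans (Eqv.swap _ _)).trans (lv_att k .pt a).eqv
      by_cases ha : a = .pt
      · subst ha
        left
        refine ⟨k + 1, ?_⟩
        exact (((REqv.refl BT.pt).att hk).eqv).trans (Eqv.swap _ _)
      · right
        exact ⟨k, a, hk0 hb', ha, h1⟩
    · have h1 : Eqv (.att a b) (.att (.att b' a) c) :=
        ((((REqv.refl a).att h).eqv).trans (Eqv.swap _ _)).trans (REqv.comm _ _ _).eqv
      rcases ih (.att b' a) c (by omega) hc with ⟨k, hk⟩ | ⟨k, w, hk, hw, h2⟩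
      · exact Or.inl ⟨k, h1.trans hk⟩
      · exact Or.inr ⟨k, w, hk, hw, h1.trans h2⟩

theorem root : S_root := by
  intro t
  cases t with
  | pt => exact Or.inl ⟨0, fun _ _ _ => rfl⟩
  | att a b =>
    by_cases hb : b = .pt
    · subst hb
      by_cases ha : a = .pt
      · subst ha
        exact Or.inl ⟨1, fun _ _ _ => rfl⟩
      · rcases root_aux a.size .pt a le_rfl ha with ⟨k, hk⟩ | ⟨k, w, hk, hw, h⟩
        · exact Or.inl ⟨k, (Eqv.swap _ _).trans hk⟩
        · exact Or.inr ⟨k, w, hk, hw, (Eqv.swap _ _).trans h⟩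
    · exact root_aux b.size a b le_rfl hb

/-! ### The invariant -/

theorem lfA_eq_pt {n : ℕ} (hn : 6 ≤ n) {i : ℕ} : lfA n i = plA n (vA n .pt) i := by rw [← lfA_eq hn]

theorem lfD_eq_pt {n : ℕ} (hn : 6 ≤ n) {i : ℕ} : lfD n i = plD n (vD n .pt) i := by rw [← lfD_eq hn]

/-- The vectors of `t` are those of `K` leaves times trivial or good ones. -/
def Form (n : ℕ) (t : BT) : Prop := ∃ (K : ℕ) (a d : ℕ → ℝ), AF n a ∧ DF n d ∧
  (∀ i, vA n t i = lfA n i ^ K * a i) ∧ (∀ j, vD n t j = lfD n j ^ K * d j) ∧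
  ((a = vA n .pt ∧ d = vD n .pt ∧ (t ≠ .pt → 1 ≤ K)) ∨ Good n a d)

theorem vA_pt_one {n i : ℕ} (h1 : 1 ≤ i) (h2 : i ≤ n) : vA n .pt i = 1 := by simp [vA, h1, h2]

theorem vD_pt_one {n i : ℕ} (h1 : 1 ≤ i) (h2 : i ≤ n - 1) : vD n .pt i = 1 := by simp [vD, h1, h2]

theorem Form.facts {n : ℕ} (hn : 6 ≤ n) {t : BT} (h : Form n t) :
    ∃ (K : ℕ) (a d : ℕ → ℝ), AF n a ∧ DF n d ∧
      (∀ i, vA n t i = lfA n i ^ K * a i) ∧ (∀ j, vD n t j = lfD n j ^ K * d j) ∧
      a 2 * a 3 ≤ d 1 * d 2 ∧ VV n a d ∧ (t ≠ .pt → K = 0 → (a 1 + a 3) * (a 2 + a 4) ≤ d 2 * (2 * d 1 + d 3)) := by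
  obtain ⟨K, a, d, ha, hd, h1, h2, h3⟩ := h
  refine ⟨K, a, d, ha, hd, h1, h2, ?_⟩
  rcases h3 with ⟨rfl, rfl, h3⟩ | h3
  · refine ⟨?_, ?_, ?_⟩
    · rw [vA_pt_one (by omega) (by omega), vA_pt_one (by omega) (by omega), vD_pt_one (by omega) (by omega),
        vD_pt_one (by omega) (by omega)]
    · intro j hj1 hj2
      rw [vA_pt_one (by omega) (by omega), vA_pt_one (by omega) (by omega), vD_pt_one (by omega) (by omega),
        vD_pt_one (by omega) (by omega)]
    · intro ht hK
      exfalso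
      have := h3 ht
      omega
  · exact ⟨h3.A, h3.V, fun _ _ => h3.alpha⟩

/-- The vectors of a planted tree are good. -/
theorem Form.good {n : ℕ} (hn : 6 ≤ n) (he : Even n) {t : BT} (h : Form n t) (ht : t ≠ .pt) :
    Good n (plA n (vA n t)) (plD n (vD n t)) := by
  obtain ⟨K, a, d, ha, hd, h1, h2, h3, h4, h5⟩ := h.facts hn
  have e1 : vA n t = fun i => lfA n i ^ K * a i := funext h1
  have e2 : vD n t = fun i => lfD n i ^ K * d i := funext h2
  rw [e1, e2]
  exact plant n hn he a d ha hd h3 h4 K (h5 ht)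

theorem af_t {n : ℕ} (hn : 6 ≤ n) (he : Even n) (t : BT) : AF n (vA n t) ∧ DF n (vD n t) := by
  induction t with
  | pt => exact ⟨af_pt n hn, df_pt n⟩
  | att a b iha ihb =>
    exact ⟨iha.1.mul (ihb.1.plant hn he), iha.2.mul (ihb.2.plant hn)⟩

theorem form {n : ℕ} (hn : 6 ≤ n) (he : Even n) (t : BT) : Form n t := by
  induction t with
  | pt =>
    refine ⟨0, vA n .pt, vD n .pt, af_pt n hn, df_pt n, ?_, ?_, Or.inl ⟨rfl, rfl, fun h => absurd rfl h⟩⟩
    · intro i; rw [pow_zero, one_mul]
    · intro i; rw [pow_zero, one_mul]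
  | att t1 t2 ih1 ih2 =>
    obtain ⟨K, a, d, ha, hd, h1, h2, h3⟩ := ih1
    by_cases ht2 : t2 = .pt
    · subst ht2
      refine ⟨K + 1, a, d, ha, hd, ?_, ?_, ?_⟩
      · intro i
        show vA n t1 i * plA n (vA n .pt) i = _
        rw [h1 i, ← lfA_eq_pt hn]
        ring
      · intro i
        show vD n t1 i * plD n (vD n .pt) i = _
        rw [h2 i, ← lfD_eq_pt hn]
        ring
      · rcases h3 with ⟨e1, e2, _⟩ | h3
        · exact Or.inl ⟨e1, e2, fun _ => Nat.succ_pos K⟩
        · exact Or.inr h3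
    · have hg := ih2.good hn he ht2
      have haf := (af_t hn he t2).1.plant hn he
      have hdf := (af_t hn he t2).2.plant hn
      refine ⟨K, fun i => a i * plA n (vA n t2) i, fun i => d i * plD n (vD n t2) i, ha.mul haf, hd.mul hdf,
        ?_, ?_, Or.inr ?_⟩
      · intro i
        show vA n t1 i * plA n (vA n t2) i = _
        rw [h1 i]
        ring
      · intro i
        show vD n t1 i * plD n (vD n t2) i = _
        rw [h2 i]
        ring
      · rcases h3 with ⟨rfl, rfl, _⟩ | h3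
        · have e1 : (fun i => vA n .pt i * plA n (vA n t2) i) = plA n (vA n t2) := by
            funext i
            by_cases hi : 1 ≤ i ∧ i ≤ n
            · rw [vA_pt_one hi.1 hi.2, one_mul]
            · simp [plA, hi]
          have e2 : (fun i => vD n .pt i * plD n (vD n t2) i) = plD n (vD n t2) := by
            funext i
            by_cases hi : 1 ≤ i ∧ i ≤ n - 1
            · rw [vD_pt_one hi.1 hi.2, one_mul]
            · have : plD n (vD n t2) i = 0 := by
                rcases Nat.eq_zero_or_pos i with rfl | hi0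
                · exact hdf.zero
                · exact hdf.zero' i (by omega)
              rw [this, mul_zero]
          rw [e1, e2]
          exact hg
        · exact prod n hn he _ _ _ _ ha hd haf hdf h3 hg

/-! ### The main case -/

theorem vA_lv {n : ℕ} (hn : 6 ≤ n) (u : BT) (k i : ℕ) : vA n (lv k u) i = lfA n i ^ k * vA n u i := by
  induction k with
  | zero => simp [lv]
  | succ k ih =>
    show vA n (lv k u) i * plA n (vA n .pt) i = _
    rw [ih, ← lfA_eq_pt hn]
    ring

theorem vD_lv {n : ℕ} (hn : 6 ≤ n) (u : BT) (k i : ℕ) : vD n (lv k u) i = lfD n i ^ k * vD n u i := by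
  induction k with
  | zero => simp [lv]
  | succ k ih =>
    show vD n (lv k u) i * plD n (vD n .pt) i = _
    rw [ih, ← lfD_eq_pt hn]
    ring

theorem Form.VVt {n : ℕ} (hn : 6 ≤ n) (he : Even n) {t : BT} (h : Form n t) : VV n (vA n t) (vD n t) := by
  obtain ⟨K, a, d, ha, hd, h1, h2, h3, h4, h5⟩ := h.facts hn
  have e1 : vA n t = fun i => lfA n i ^ K * a i := funext h1
  have e2 : vD n t = fun i => lfD n i ^ K * d i := funext h2
  rw [e1, e2]
  exact VV.lfpow hn he ha h4 K

theorem star_sumA (q k : ℕ) : sumA (q + 6) (vA (q + 6) (lv k .pt)) = 2 + (q + 4) * 2 ^ k := by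
  have hI : Icc 1 (q + 6) = Ico 1 (q + 7) := by
    ext i; simp only [Finset.mem_Icc, Finset.mem_Ico]; omega
  unfold sumA
  rw [hI, Finset.sum_eq_sum_Ico_succ_bot (by omega : 1 < q + 7),
    Finset.sum_Ico_succ_top (by omega : 1 + 1 ≤ q + 6)]
  rw [vA_lv (by omega), vA_lv (by omega), lfA_one (by omega), lfA_n (by omega), vA_pt_one (by omega) (by omega),
    vA_pt_one (by omega) (by omega)]
  have e : ∑ i ∈ Ico (1 + 1) (q + 6), vA (q + 6) (lv k .pt) i = ∑ i ∈ Ico (1 + 1) (q + 6), (2 : ℝ) ^ k := by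
    apply Finset.sum_congr rfl
    intro i hi
    rw [Finset.mem_Ico] at hi
    rw [vA_lv (by omega), lfA_mid (by omega) (by omega), vA_pt_one (by omega) (by omega), mul_one]
  rw [e, Finset.sum_const, Nat.card_Ico, show q + 6 - (1 + 1) = q + 4 by omega, nsmul_eq_mul]
  push_cast
  ring

theorem star_sumD (q k : ℕ) : sumD (q + 6) (vD (q + 6) (lv k .pt)) = 3 + 3 ^ k + (q + 2) * 2 ^ k := by
  have hI : Icc 1 (q + 6 - 1) = Ico 1 (q + 6) := by
    ext i; simp only [Finset.mem_Icc, Finset.mem_Ico]; omega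
  unfold sumD
  rw [hI, Finset.sum_eq_sum_Ico_succ_bot (by omega : 1 < q + 6),
    Finset.sum_eq_sum_Ico_succ_bot (by omega : 1 + 1 < q + 6),
    Finset.sum_Ico_succ_top (by omega : 1 + 1 + 1 ≤ q + 5)]
  have l : lfD (q + 6) (q + 5) = 1 := lfD_last (n := q + 6) (by omega)
  rw [vD_lv (by omega), vD_lv (by omega), vD_lv (by omega), lfD_one (by omega), l,
    vD_pt_one (by omega) (by omega), vD_pt_one (by omega) (by omega), vD_pt_one (by omega) (by omega)]
  have e : ∑ i ∈ Ico (1 + 1 + 1) (q + 5), vD (q + 6) (lv k .pt) i = ∑ i ∈ Ico (1 + 1 + 1) (q + 5), (2 : ℝ) ^ k := by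
    apply Finset.sum_congr rfl
    intro i hi
    rw [Finset.mem_Ico] at hi
    rw [vD_lv (by omega), lfD_mid (by omega) (by omega), vD_pt_one (by omega) (by omega), mul_one]
  rw [e, Finset.sum_const, Nat.card_Ico, show q + 5 - (1 + 1 + 1) = q + 2 by omega, nsmul_eq_mul,
    show (1 + 1 : ℕ) = 2 from rfl, lfD_two (by omega)]
  push_cast
  ring

theorem two_le_three (k : ℕ) : 2 * (2:ℝ) ^ k ≤ 1 + 3 ^ k := by
  induction k with
  | zero => norm_num
  | succ k ih =>
    rw [pow_succ, pow_succ]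
    have : (2:ℝ) ^ k ≤ 3 ^ k := pow_le_pow_left₀ (by norm_num) (by norm_num) _
    linarith

theorem main (hlink : S_link) (hfin : S_fin) : S_main := by
  intro n hn he t
  have key : ∀ t' : BT, sumA n (vA n t') ≤ sumD n (vD n t') → Eqv t t' →
      tot (SimpleGraph.pathGraph n) t ≤ tot (Dg n) t := by
    intro t' h1 h2
    rw [h2 _ (SimpleGraph.pathGraph n), h2 _ (Dg n)]
    obtain ⟨e1, e2⟩ := hlink n hn t'
    rw [← e1, ← e2] at h1
    exact_mod_cast h1
  rcases root t with ⟨k, hk⟩ | ⟨k, w, hk, hw, h⟩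
  · refine key _ ?_ hk
    obtain ⟨q, rfl⟩ : ∃ q, n = q + 6 := ⟨n - 6, by omega⟩
    rw [star_sumA, star_sumD]
    have := two_le_three k
    linarith
  · refine key _ ?_ h
    have e1 : vA n (lv k (.att .pt w)) = fun i => lfA n i ^ k * plA n (vA n w) i := by
      funext i
      rw [vA_lv hn]
      congr 1
      show vA n .pt i * plA n (vA n w) i = _
      by_cases hi : 1 ≤ i ∧ i ≤ n
      · rw [vA_pt_one hi.1 hi.2, one_mul]
      · simp [plA, hi]
    have hdf := (af_t hn he w).2.plant hn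
    have e2 : vD n (lv k (.att .pt w)) = fun i => lfD n i ^ k * plD n (vD n w) i := by
      funext i
      rw [vD_lv hn]
      congr 1
      show vD n .pt i * plD n (vD n w) i = _
      by_cases hi : 1 ≤ i ∧ i ≤ n - 1
      · rw [vD_pt_one hi.1 hi.2, one_mul]
      · have : plD n (vD n w) i = 0 := by
          rcases Nat.eq_zero_or_pos i with rfl | hi0
          · exact hdf.zero
          · exact hdf.zero' i (by omega)
        rw [this, mul_zero]
    rw [e1, e2]
    have hF := form hn he w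
    have hg := hF.good hn he hw
    refine hfin n hn he _ _ (af_t hn he w).1 (af_t hn he w).2 (hF.VVt hn he) ?_ k hk
    have hA := hg.A
    rw [plA_eq (by omega) (by omega), plA_eq (by omega) (by omega), plD_one, plD_two] at hA
    simpa using hA

end Pool.Agent.W106.HT
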