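import Pool.Agent.W106.HT.AFp

/-!
`S_plant` (MP_9e5f8f_co): a planted vector is good.
-/

set_option autoImplicit false

namespace Pool.Agent.W106.HT

open Finset

/-- The bulk step. -/
theorem chain4 (x y z w a b c d : ℝ) (hx : 0 < x) (hy : 0 < y) (hz : 0 < z)
    (hb : 0 < b) (hc : 0 < c) (hd : 0 ≤ d) (h1 : a * b ≤ x * y) (h2 : b * c ≤ y * z) (h3 : c * d ≤ z * w)
    (h4 : a * d ≤ b * c) : (a + c) * (b + d) ≤ (x + z) * (y + w) := by
  -- x w ≥ a b c d / (y z)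
  have hyz : 0 < y * z := mul_pos hy hz
  have hxw : a * b * (c * d) ≤ (x * w) * (y * z) := by
    calc a * b * (c * d) ≤ (x * y) * (z * w) :=
          mul_le_mul h1 h3 (mul_nonneg hc.le hd) (mul_pos hx hy).le
      _ = _ := by ring
  -- it suffices that x w + y z ≥ a d + b c
  have key : a * d + b * c ≤ x * w + y * z := by
    have hbc : 0 < b * c := mul_pos hb hc
    have h5 : (a * d) * (b * c) ≤ (x * w) * (y * z) := by
      calc (a * d) * (b * c) = a * b * (c * d) := by ring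
        _ ≤ _ := hxw
    -- with Y = yz ≥ C = bc ≥ A = ad, X Y ≥ A C : X + Y ≥ A + C
    have h6 : (a * d + b * c) * (y * z) ≤ (x * w + y * z) * (y * z) := by
      nlinarith [mul_nonneg (sub_nonneg.2 h2) (sub_nonneg.2 (h4.trans h2))]
    exact le_of_mul_le_mul_right h6 hyz
  nlinarith [key, h1, h3]

theorem mono4 {n : ℕ} (hn : 6 ≤ n) (he : Even n) {b : ℕ → ℝ} (hb : AF n b) :
    b 1 ≤ b 2 ∧ b 2 ≤ b 3 ∧ b 3 ≤ b 4 := by
  refine ⟨hb.mono 1 (by omega) (by omega), hb.mono 2 (by omega) (by omega), ?_⟩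
  by_cases h : 8 ≤ n
  · exact hb.mono 3 (by omega) (by omega)
  · have h6 : n = 6 := by
      obtain ⟨r, hr⟩ := he
      omega
    subst h6
    rw [hb.sym' 4 3 (by omega)]

/-- Facts on the powers. -/
theorem pw (K : ℕ) (hK : 1 ≤ K) : ((2:ℝ) ^ K = 2 ∧ (3:ℝ) ^ K = 3) ∨ ((2:ℝ) ^ K = 4 ∧ (3:ℝ) ^ K = 9) ∨
    ((2:ℝ) ^ K = 8 ∧ (3:ℝ) ^ K = 27) ∨ (16 ≤ (2:ℝ) ^ K ∧ 5 * (2:ℝ) ^ K ≤ 3 ^ K) := by
  rcases Nat.lt_or_ge K 4 with h | h
  · interval_cases K
    · left; norm_num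
    · right; left; norm_num
    · right; right; left; norm_num
  · right; right; right
    induction K, h using Nat.le_induction with
    | base => norm_num
    | succ m hm ih =>
      obtain ⟨h1, h2⟩ := ih (by omega)
      rw [pow_succ, pow_succ]
      constructor <;> linarith

theorem lin_corners (cp cq cs p q s : ℝ) (hp : 0 ≤ p) (hq : 0 ≤ q) (hps : p ≤ s) (hqs : q ≤ s)
    (h00 : 0 ≤ cs) (h10 : 0 ≤ cp + cs) (h01 : 0 ≤ cq + cs) (h11 : 0 ≤ cp + cq + cs) :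
    0 ≤ cp * p + cq * q + cs * s := by
  have hs : 0 ≤ s := hp.trans hps
  rcases le_total 0 cp with h1 | h1 <;> rcases le_total 0 cq with h2 | h2
  · positivity
  · have := mul_nonneg_of_nonpos_of_nonpos h2 (sub_nonpos.2 hqs)
    have := mul_nonneg h1 hp
    have := mul_nonneg h01 hs
    nlinarith
  · have := mul_nonneg_of_nonpos_of_nonpos h1 (sub_nonpos.2 hps)
    have := mul_nonneg h2 hq
    have := mul_nonneg h10 hs
    nlinarith
  · have := mul_nonneg_of_nonpos_of_nonpos h1 (sub_nonpos.2 hps)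
    have := mul_nonneg_of_nonpos_of_nonpos h2 (sub_nonpos.2 hqs)
    have := mul_nonneg h11 hs
    nlinarith

/-- `c₁ R + c₂ S ≥ c₁ q + c₂ s` for `R S ≥ q s`, `S ≥ s ≥ q`, `c₁ ≤ c₂`. -/
theorem core1 (R S q s c1 c2 : ℝ) (hS : s ≤ S) (hs : 0 < s) (hqs : q ≤ s) (hRS : q * s ≤ R * S)
    (hc : c1 ≤ c2) (hc1 : 0 ≤ c1) : c1 * q + c2 * s ≤ c1 * R + c2 * S := by
  have hS0 : 0 < S := by linarith
  have h1 : (c1 * q + c2 * s) * S ≤ (c1 * R + c2 * S) * S := by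
    have h2 : c1 * (q * s) ≤ c1 * (R * S) := mul_le_mul_of_nonneg_left hRS hc1
    -- c1 q s + c2 S² - c1 q S - c2 s S = c2 S (S - s) - c1 q (S - s) = (S - s)(c2 S - c1 q)
    have h3 : c1 * q ≤ c2 * S := by
      calc c1 * q ≤ c1 * S := mul_le_mul_of_nonneg_left (hqs.trans hS) hc1
        _ ≤ c2 * S := mul_le_mul_of_nonneg_right hc hS0.le
    nlinarith [mul_nonneg (sub_nonneg.2 hS) (sub_nonneg.2 h3)]
  exact le_of_mul_le_mul_right h1 hS0

/-- The case `K = 0`: `2 R + S ≥ q + s`. -/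
theorem core0 (R S q s : ℝ) (hS : s ≤ S) (hs : 0 < s) (hq : 0 ≤ q) (hqs : q ≤ s) (hRS : q * s ≤ R * S) :
    q + s ≤ 2 * R + S := by
  have hS0 : 0 < S := by linarith
  have h1 : (q + s) * S ≤ (2 * R + S) * S := by
    nlinarith [mul_nonneg (sub_nonneg.2 hS) (sub_nonneg.2 (hqs.trans hS)), mul_nonneg hq hs.le]
  exact le_of_mul_le_mul_right h1 hS0

theorem lfA_mid {n i : ℕ} (h1 : 2 ≤ i) (h2 : i ≤ n - 1) : lfA n i = 2 := by
  unfold lfA
  rw [if_neg (by omega), if_neg (by omega)]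

theorem lfA_one {n : ℕ} (hn : 6 ≤ n) : lfA n 1 = 1 := by
  unfold lfA
  rw [if_neg (by omega), if_pos (by omega)]

theorem lfA_n {n : ℕ} (hn : 6 ≤ n) : lfA n n = 1 := by
  unfold lfA
  rw [if_neg (by omega), if_pos (by omega)]

theorem lfD_one {n : ℕ} (hn : 6 ≤ n) : lfD n 1 = 1 := by
  unfold lfD
  rw [if_neg (by omega), if_pos (by omega)]

theorem lfD_two {n : ℕ} (hn : 6 ≤ n) : lfD n 2 = 3 := by
  unfold lfD
  rw [if_neg (by omega), if_neg (by omega), if_pos rfl]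

theorem lfD_mid {n j : ℕ} (h1 : 3 ≤ j) (h2 : j ≤ n - 2) : lfD n j = 2 := by
  unfold lfD
  rw [if_neg (by omega), if_neg (by omega), if_neg (by omega)]

theorem lfD_last {n : ℕ} (hn : 6 ≤ n) : lfD n (n - 1) = 1 := by
  unfold lfD
  rw [if_neg (by omega), if_pos (by omega)]

theorem lfA_eq {n : ℕ} (hn : 6 ≤ n) : lfA n = plA n (vA n .pt) := by
  funext i
  unfold lfA plA vA
  split_ifs <;> first | omega | norm_num

theorem lfD_eq {n : ℕ} (hn : 6 ≤ n) : lfD n = plD n (vD n .pt) := by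
  funext i
  unfold lfD plD vD
  split_ifs <;> first | omega | norm_num

theorem af_lf {n : ℕ} (hn : 6 ≤ n) (he : Even n) : AF n (lfA n) := by
  rw [lfA_eq hn]
  exact (af_pt n hn).plant hn he

theorem df_lf {n : ℕ} (hn : 6 ≤ n) : DF n (lfD n) := by
  rw [lfD_eq hn]
  exact (df_pt n).plant hn

theorem AF.lfpow {n : ℕ} (hn : 6 ≤ n) (he : Even n) {a : ℕ → ℝ} (ha : AF n a) (K : ℕ) :
    AF n (fun i => lfA n i ^ K * a i) := by
  induction K with
  | zero => simpa using ha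
  | succ K ih =>
    have := (af_lf hn he).mul ih
    refine (show (fun i => lfA n i ^ (K + 1) * a i) = (fun i => lfA n i * (lfA n i ^ K * a i)) from ?_) ▸ this
    funext i
    ring

theorem DF.lfpow {n : ℕ} (hn : 6 ≤ n) {a : ℕ → ℝ} (ha : DF n a) (K : ℕ) :
    DF n (fun i => lfD n i ^ K * a i) := by
  induction K with
  | zero => simpa using ha
  | succ K ih =>
    have := (df_lf hn).mul ih
    refine (show (fun i => lfD n i ^ (K + 1) * a i) = (fun i => lfD n i * (lfD n i ^ K * a i)) from ?_) ▸ this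
    funext i
    ring

theorem VV.lfpow {n : ℕ} (hn : 6 ≤ n) (he : Even n) {a d : ℕ → ℝ} (ha : AF n a) (h : VV n a d)
    (K : ℕ) : VV n (fun i => lfA n i ^ K * a i) (fun j => lfD n j ^ K * d j) := by
  intro j h1 h2
  have h3 : lfA n (j + 1) * lfA n (j + 2) ≤ lfD n j * lfD n (j + 1) := by
    by_cases hj : j = n - 2
    · have e1 : lfA n (j + 1) = 2 := lfA_mid (by omega) (by omega)
      have e2 : lfA n (j + 2) = 1 := by rw [show j + 2 = n by omega]; exact lfA_n hn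
      have e3 : lfD n j = 2 := lfD_mid (by omega) (by omega)
      have e4 : lfD n (j + 1) = 1 := by rw [show j + 1 = n - 1 by omega]; exact lfD_last hn
      rw [e1, e2, e3, e4]
    · have e1 : lfA n (j + 1) = 2 := lfA_mid (by omega) (by omega)
      have e2 : lfA n (j + 2) = 2 := lfA_mid (by omega) (by omega)
      have e4 : lfD n (j + 1) = 2 := lfD_mid (by omega) (by omega)
      rw [e1, e2, e4]
      by_cases hj2 : j = 2
      · subst hj2
        rw [lfD_two hn]; norm_num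
      · rw [lfD_mid (by omega) (by omega)]
  have h4 : 0 ≤ lfA n (j + 1) * lfA n (j + 2) :=
    mul_nonneg ((af_lf hn he).nonneg _) ((af_lf hn he).nonneg _)
  have h5 := pow_le_pow_left₀ h4 h3 K
  have h6 := h j h1 h2
  calc lfA n (j + 1) ^ K * a (j + 1) * (lfA n (j + 2) ^ K * a (j + 2)) =
      (lfA n (j + 1) * lfA n (j + 2)) ^ K * (a (j + 1) * a (j + 2)) := by rw [mul_pow]; ring
    _ ≤ (lfD n j * lfD n (j + 1)) ^ K * (d j * d (j + 1)) :=
      mul_le_mul h5 h6 (mul_nonneg (ha.nonneg _) (ha.nonneg _))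
        (pow_nonneg (mul_nonneg ((df_lf hn).nonneg _) ((df_lf hn).nonneg _)) _)
    _ = _ := by rw [mul_pow]; ring

theorem plD_one {n : ℕ} {d : ℕ → ℝ} : plD n d 1 = d 2 := by simp [plD]

theorem plD_two {n : ℕ} {d : ℕ → ℝ} : plD n d 2 = 2 * d 1 + d 3 := by simp [plD]

theorem plD_eq {n : ℕ} {d : ℕ → ℝ} {j : ℕ} (h1 : 3 ≤ j) (h2 : j ≤ n - 1) : plD n d j = d (j - 1) + d (j + 1) := by
  unfold plD
  rw [if_neg (by omega), if_neg (by omega), if_neg (by omega), if_pos h2]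

/-- The inequalities `V_j`, `j ≥ 3`, for a planted vector. -/
theorem VV_plant {n : ℕ} {a d : ℕ → ℝ} (ha : AF n a) (hd : DF n d) (h : VV n a d) (j : ℕ)
    (h1 : 3 ≤ j) (h2 : j ≤ n - 2) : plA n a (j + 1) * plA n a (j + 2) ≤ plD n d j * plD n d (j + 1) := by
  rw [plA_eq (by omega) (by omega), plA_eq (by omega) (by omega), plD_eq (by omega) (by omega),
    plD_eq (by omega) (by omega)]
  simp only [Nat.add_sub_cancel]
  rw [show j + 2 - 1 = j + 1 by omega, show j + 1 + 1 = j + 2 by omega, show j + 2 + 1 = j + 3 by omega]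
  have e1 := h (j - 1) (by omega) (by omega)
  rw [show j - 1 + 1 = j by omega, show j - 1 + 2 = j + 1 by omega] at e1
  have e2 := h j (by omega) (by omega)
  by_cases hj : j = n - 2
  · have z1 : d (j + 2) = 0 := hd.zero' _ (by omega)
    have z2 : a (j + 3) = 0 := ha.zero' _ (by omega)
    rw [z1, z2]
    nlinarith [e1, e2]
  · have e3 := h (j + 1) (by omega) (by omega)
    rw [show j + 1 + 1 = j + 2 by omega, show j + 1 + 2 = j + 3 by omega] at e3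
    have e4 := ha.L' j (j + 3) (by omega) (by rw [show j + 3 - j = 3 by omega]; decide)
    rw [show j + 3 - 1 = j + 2 by omega] at e4
    exact chain4 _ _ _ _ _ _ _ _ (hd.pos _ (by omega) (by omega)) (hd.pos _ (by omega) (by omega))
      (hd.pos _ (by omega) (by omega)) (ha.pos _ (by omega) (by omega)) (ha.pos _ (by omega) (by omega))
      (ha.nonneg _) e1 e2 e3 e4

/-- The possible pairs `(2 ^ K, 3 ^ K)`, `K ≥ 1`. -/
def PK (α β : ℝ) : Prop := (β = 2 ∧ α = 3) ∨ (β = 4 ∧ α = 9) ∨ (β = 8 ∧ α = 27) ∨ (16 ≤ β ∧ 5 * β ≤ α)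

theorem PK.basic {α β : ℝ} (h : PK α β) : 2 ≤ β ∧ β ≤ α := by
  rcases h with h | h | h | h
  · rw [h.1, h.2]; norm_num
  · rw [h.1, h.2]; norm_num
  · rw [h.1, h.2]; norm_num
  · constructor <;> linarith [h.1, h.2]

theorem PK.big {α β : ℝ} (h1 : 16 ≤ β) (h2 : 5 * β ≤ α) : 5 * (β * β) ≤ α * β ∧ 16 * β ≤ β * β := by
  constructor <;> nlinarith

theorem PK.c1 {α β : ℝ} (h : PK α β) (p q s : ℝ) (hp : 0 ≤ p) (hq : 0 ≤ q) (hps : p ≤ s) (hqs : q ≤ s) :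
    0 ≤ (2 * α - β - β * β) * p + 0 * q + (α * β - β - β * β) * s := by
  rcases h with h | h | h | h
  · rw [h.1, h.2]; apply lin_corners _ _ _ _ _ _ hp hq hps hqs <;> norm_num
  · rw [h.1, h.2]; apply lin_corners _ _ _ _ _ _ hp hq hps hqs <;> norm_num
  · rw [h.1, h.2]; apply lin_corners _ _ _ _ _ _ hp hq hps hqs <;> norm_num
  · obtain ⟨e1, e2⟩ := PK.big h.1 h.2
    have e3 := h.1
    have e4 := h.2
    apply lin_corners _ _ _ _ _ _ hp hq hps hqs <;> linarith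

theorem PK.c2 {α β : ℝ} (h : PK α β) (p q s : ℝ) (hp : 0 ≤ p) (hq : 0 ≤ q) (hps : p ≤ s) (hqs : q ≤ s) :
    0 ≤ (2 * α - β * β) * p + (2 * β - β * β) * q + (α * β - β * β) * s := by
  rcases h with h | h | h | h
  · rw [h.1, h.2]; apply lin_corners _ _ _ _ _ _ hp hq hps hqs <;> norm_num
  · rw [h.1, h.2]; apply lin_corners _ _ _ _ _ _ hp hq hps hqs <;> norm_num
  · rw [h.1, h.2]; apply lin_corners _ _ _ _ _ _ hp hq hps hqs <;> norm_num
  · obtain ⟨e1, e2⟩ := PK.big h.1 h.2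
    have e3 := h.1
    have e4 := h.2
    apply lin_corners _ _ _ _ _ _ hp hq hps hqs <;> linarith

theorem PK.c3 {α β : ℝ} (h : PK α β) (p q s : ℝ) (hp : 0 ≤ p) (hq : 0 ≤ q) (hps : p ≤ s) (hqs : q ≤ s) :
    0 ≤ (2 * α - 3 / 2 * (β * β)) * p + (2 * β - 3 / 2 * (β * β)) * q + (α * β - 1 / 2 * (β * β)) * s := by
  rcases h with h | h | h | h
  · rw [h.1, h.2]; apply lin_corners _ _ _ _ _ _ hp hq hps hqs <;> norm_num
  · rw [h.1, h.2]; apply lin_corners _ _ _ _ _ _ hp hq hps hqs <;> norm_num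
  · rw [h.1, h.2]; apply lin_corners _ _ _ _ _ _ hp hq hps hqs <;> norm_num
  · obtain ⟨e1, e2⟩ := PK.big h.1 h.2
    have e3 := h.1
    have e4 := h.2
    apply lin_corners _ _ _ _ _ _ hp hq hps hqs <;> linarith

theorem PK.c4 {α β : ℝ} (h : PK α β) (p q s : ℝ) (hp : 0 ≤ p) (hq : 0 ≤ q) (hps : p ≤ s) (hqs : q ≤ s) :
    0 ≤ (6 * α - 2 * β - 4 * (β * β)) * p + (2 * β - 2 * (β * β)) * q + (3 * (α * β) - β - 2 * (β * β)) * s := by
  rcases h with h | h | h | h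
  · rw [h.1, h.2]; apply lin_corners _ _ _ _ _ _ hp hq hps hqs <;> norm_num
  · rw [h.1, h.2]; apply lin_corners _ _ _ _ _ _ hp hq hps hqs <;> norm_num
  · rw [h.1, h.2]; apply lin_corners _ _ _ _ _ _ hp hq hps hqs <;> norm_num
  · obtain ⟨e1, e2⟩ := PK.big h.1 h.2
    have e3 := h.1
    have e4 := h.2
    apply lin_corners _ _ _ _ _ _ hp hq hps hqs <;> linarith

/-- The four inequalities for `K = 0`. -/
theorem four0 (a1 a2 a3 a4 a5 d1 d2 d3 d4 : ℝ) (p1 : 0 < a1) (p2 : 0 < a2) (p3 : 0 < a3)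
    (p4 : 0 < a4) (p5 : 0 < a5)
    (hL : a2 * a5 ≤ a3 * a4) (hN : a2 * a3 ≤ d1 * d2) (hV2 : a3 * a4 ≤ d2 * d3)
    (hV3 : a4 * a5 ≤ d3 * d4) (hRS : (a2 * a5) * (a3 * a4) ≤ (d1 * d4) * (d2 * d3))
    (h13 : a1 * (2 * a2 + a4) ≤ 2 * (a2 * a3) + a3 * a4) (hα : (a1 + a3) * (a2 + a4) ≤ d2 * (2 * d1 + d3)) :
    ((a1 + 1 * a3) * (1 * a2 + 1 * a4) ≤ 1 * d2 * (2 * d1 + 1 * d3)) ∧
      ((1 * a2 + 1 * a4) * (1 * a3 + 1 * a5) ≤ (2 * d1 + 1 * d3) * (1 * d2 + 1 * d4)) ∧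
      ((1 * a2) * (a1 + 1 * a3) + (1 * a2) * (1 * a3 + 1 * a5) - (a1 + 1 * a3) * (1 * a2 + 1 * a4) ≤
        2 * ((2 * d1 + 1 * d3) * (1 * d2 + 1 * d4) - (1 * a2 + 1 * a4) * (1 * a3 + 1 * a5))) ∧
      ((1 * a2 + (1 * a2 + 1 * a4)) * ((a1 + 1 * a3) + (1 * a3 + 1 * a5)) ≤
        (2 * d1 + 1 * d3) * (2 * (1 * d2) + (1 * d2 + 1 * d4))) := by
  have hp : 0 < a2 * a3 := by positivity
  have hq : 0 < a2 * a5 := by positivity
  have hs : 0 < a3 * a4 := by positivity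
  have c0 := core0 _ _ _ _ hV2 hs hq.le hL hRS
  have c3 := core1 _ _ _ _ 2 3 hV2 hs hL hRS (by norm_num) (by norm_num)
  have e4 : 0 ≤ a1 * a4 := by positivity
  simp only [one_mul]
  have E1 : (a2 + a4) * (a3 + a5) = (a2 * a3) + (a2 * a5) + (a3 * a4) + (a4 * a5) := by ring
  have E2 : (2 * d1 + d3) * (d2 + d4) = 2 * (d1 * d2) + 2 * (d1 * d4) + (d2 * d3) + (d3 * d4) := by ring
  refine ⟨hα, ?_, ?_, ?_⟩
  · rw [E1, E2]
    linarith
  · have e3 : a2 * (a1 + a3) + a2 * (a3 + a5) - (a1 + a3) * (a2 + a4) =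
        (a2 * a3) + (a2 * a5) - (a3 * a4) - (a1 * a4) := by ring
    rw [E1, E2, e3]
    linarith
  · have e1 : (a2 + (a2 + a4)) * ((a1 + a3) + (a3 + a5)) =
        (a1 * (2 * a2 + a4)) + 4 * (a2 * a3) + 2 * (a2 * a5) + 2 * (a3 * a4) + (a4 * a5) := by ring
    have e2 : (2 * d1 + d3) * (2 * d2 + (d2 + d4)) =
        6 * (d1 * d2) + 2 * (d1 * d4) + 3 * (d2 * d3) + (d3 * d4) := by ring
    rw [e1, e2]
    linarith

/-- The four inequalities for `K ≥ 1`. -/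
theorem four (α β a1 a2 a3 a4 a5 d1 d2 d3 d4 : ℝ) (h : PK α β) (p1 : 0 < a1) (p2 : 0 < a2) (p3 : 0 < a3)
    (p4 : 0 < a4) (p5 : 0 < a5) (m13 : a1 ≤ a3) (hps : a2 * a3 ≤ a3 * a4)
    (hL : a2 * a5 ≤ a3 * a4) (hN : a2 * a3 ≤ d1 * d2) (hV2 : a3 * a4 ≤ d2 * d3)
    (hV3 : a4 * a5 ≤ d3 * d4) (hRS : (a2 * a5) * (a3 * a4) ≤ (d1 * d4) * (d2 * d3))
    (h13 : a1 * (2 * a2 + a4) ≤ 2 * (a2 * a3) + a3 * a4) :
    ((a1 + β * a3) * (β * a2 + β * a4) ≤ α * d2 * (2 * d1 + β * d3)) ∧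
      ((β * a2 + β * a4) * (β * a3 + β * a5) ≤ (2 * d1 + β * d3) * (α * d2 + β * d4)) ∧
      ((β * a2) * (a1 + β * a3) + (β * a2) * (β * a3 + β * a5) - (a1 + β * a3) * (β * a2 + β * a4) ≤
        2 * ((2 * d1 + β * d3) * (α * d2 + β * d4) - (β * a2 + β * a4) * (β * a3 + β * a5))) ∧
      ((β * a2 + (β * a2 + β * a4)) * ((a1 + β * a3) + (β * a3 + β * a5)) ≤
        (2 * d1 + β * d3) * (2 * (α * d2) + (α * d2 + β * d4))) := by
  obtain ⟨b2, ab⟩ := h.basic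
  have hp : 0 < a2 * a3 := by positivity
  have hq : 0 < a2 * a5 := by positivity
  have hs : 0 < a3 * a4 := by positivity
  have hb0 : 0 < β := by linarith
  have ha0 : 0 < α := by linarith
  have k1 := h.c1 _ _ _ hp.le hq.le hps hL
  have k2 := h.c2 _ _ _ hp.le hq.le hps hL
  have k3 := h.c3 _ _ _ hp.le hq.le hps hL
  have k4 := h.c4 _ _ _ hp.le hq.le hps hL
  have hab : 2 * β ≤ α * β := mul_le_mul_of_nonneg_right (b2.trans ab) hb0.le
  have hab3 : α * β ≤ 3 * (α * β) := by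
    have : 0 ≤ α * β := by positivity
    linarith
  have c1 := core1 _ _ _ _ (2 * β) (α * β) hV2 hs hL hRS hab (by positivity)
  have c2 := core1 _ _ _ _ (2 * β) (3 * (α * β)) hV2 hs hL hRS (hab.trans hab3) (by positivity)
  have n1 : 2 * α * (a2 * a3) ≤ 2 * α * (d1 * d2) := mul_le_mul_of_nonneg_left hN (by positivity)
  have n2 : α * β * (a3 * a4) ≤ α * β * (d2 * d3) := mul_le_mul_of_nonneg_left hV2 (by positivity)
  have n3 : β * β * (a4 * a5) ≤ β * β * (d3 * d4) := mul_le_mul_of_nonneg_left hV3 (by positivity)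
  have h13' := mul_le_mul_of_nonneg_left h13 hb0.le
  have ha1 : a1 * (β * (a2 + a4)) ≤ a3 * (β * (a2 + a4)) :=
    mul_le_mul_of_nonneg_right m13 (by positivity)
  have e4 : 0 ≤ β * (a1 * a4) := by positivity
  have E1 : (β * a2 + β * a4) * (β * a3 + β * a5) = β * β * (a2 * a3) + β * β * (a2 * a5) +
      β * β * (a3 * a4) + β * β * (a4 * a5) := by ring
  have E2 : (2 * d1 + β * d3) * (α * d2 + β * d4) = 2 * α * (d1 * d2) + 2 * β * (d1 * d4) +
      α * β * (d2 * d3) + β * β * (d3 * d4) := by ring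
  refine ⟨?_, ?_, ?_, ?_⟩
  · have e1 : (a1 + β * a3) * (β * a2 + β * a4) = a1 * (β * (a2 + a4)) +
        β * β * (a2 * a3) + β * β * (a3 * a4) := by ring
    have e2 : α * d2 * (2 * d1 + β * d3) = 2 * α * (d1 * d2) + α * β * (d2 * d3) := by ring
    rw [e1, e2]
    linarith
  · rw [E1, E2]
    linarith
  · have e3 : (β * a2) * (a1 + β * a3) + (β * a2) * (β * a3 + β * a5) -
        (a1 + β * a3) * (β * a2 + β * a4) = β * β * (a2 * a3) + β * β * (a2 * a5) -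
        β * β * (a3 * a4) - β * (a1 * a4) := by ring
    rw [E1, E2, e3]
    linarith
  · have e1 : (β * a2 + (β * a2 + β * a4)) * ((a1 + β * a3) + (β * a3 + β * a5)) =
        β * (a1 * (2 * a2 + a4)) + 4 * (β * β) * (a2 * a3) + 2 * (β * β) * (a2 * a5) +
        2 * (β * β) * (a3 * a4) + β * β * (a4 * a5) := by ring
    have e2 : (2 * d1 + β * d3) * (2 * (α * d2) + (α * d2 + β * d4)) =
        3 * (2 * α * (d1 * d2)) + 2 * β * (d1 * d4) + 3 * (α * β) * (d2 * d3) +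
        β * β * (d3 * d4) := by ring
    rw [e1, e2]
    linarith

theorem plant : S_plant := by
  intro n hn he a d ha hd hA hV K hK
  have hta := ha.lfpow hn he K
  have htd := hd.lfpow hn K
  have htV := VV.lfpow hn he ha hV K
  obtain ⟨m12, m23, m34⟩ := mono4 hn he ha
  have p1 := ha.pos 1 (by omega) (by omega)
  have p2 := ha.pos 2 (by omega) (by omega)
  have p3 := ha.pos 3 (by omega) (by omega)
  have p4 := ha.pos 4 (by omega) (by omega)
  have p5 := ha.pos 5 (by omega) (by omega)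
  have q1 := hd.pos 1 (by omega) (by omega)
  have q2 := hd.pos 2 (by omega) (by omega)
  have q3 := hd.pos 3 (by omega) (by omega)
  have q4 := hd.pos 4 (by omega) (by omega)
  have hV2 := hV 2 (by omega) (by omega)
  have hV3 := hV 3 (by omega) (by omega)
  simp only [Nat.reduceAdd] at hV2 hV3
  have hL := ha.L' 2 5 (by omega) (by decide)
  simp only [Nat.reduceAdd, Nat.reduceSub] at hL
  have hRS : (a 2 * a 5) * (a 3 * a 4) ≤ (d 1 * d 4) * (d 2 * d 3) := by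
    calc (a 2 * a 5) * (a 3 * a 4) = (a 2 * a 3) * (a 4 * a 5) := by ring
      _ ≤ (d 1 * d 2) * (d 3 * d 4) := mul_le_mul hA hV3 (by positivity) (by positivity)
      _ = _ := by ring
  have hps : a 2 * a 3 ≤ a 3 * a 4 := by
    rw [mul_comm]
    exact mul_le_mul_of_nonneg_left (m23.trans m34) p3.le
  have hs : 0 < a 3 * a 4 := by positivity
  have hp : 0 < a 2 * a 3 := by positivity
  have hq : 0 < a 2 * a 5 := by positivity
  have h13 : a 1 * (2 * a 2 + a 4) ≤ 2 * (a 2 * a 3) + a 3 * a 4 := by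
    calc a 1 * (2 * a 2 + a 4) ≤ a 3 * (2 * a 2 + a 4) :=
          mul_le_mul_of_nonneg_right (m12.trans m23) (by positivity)
      _ = _ := by ring
  -- values of the vector
  have A1 : lfA n 1 ^ K * a 1 = a 1 := by rw [lfA_one hn, one_pow, one_mul]
  have A2 : lfA n 2 ^ K * a 2 = 2 ^ K * a 2 := by rw [lfA_mid (by omega) (by omega)]
  have A3 : lfA n 3 ^ K * a 3 = 2 ^ K * a 3 := by rw [lfA_mid (by omega) (by omega)]
  have A4 : lfA n 4 ^ K * a 4 = 2 ^ K * a 4 := by rw [lfA_mid (by omega) (by omega)]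
  have A5 : lfA n 5 ^ K * a 5 = 2 ^ K * a 5 := by rw [lfA_mid (by omega) (by omega)]
  have D1 : lfD n 1 ^ K * d 1 = d 1 := by rw [lfD_one hn, one_pow, one_mul]
  have D2 : lfD n 2 ^ K * d 2 = 3 ^ K * d 2 := by rw [lfD_two hn]
  have D3 : lfD n 3 ^ K * d 3 = 2 ^ K * d 3 := by rw [lfD_mid (by omega) (by omega)]
  have D4 : lfD n 4 ^ K * d 4 = 2 ^ K * d 4 := by rw [lfD_mid (by omega) (by omega)]
  have a0 : lfA n 0 ^ K * a 0 = 0 := by rw [ha.zero, mul_zero]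
  -- planted values
  have PA1 : plA n (fun i => lfA n i ^ K * a i) 1 = 2 ^ K * a 2 := by
    rw [plA_eq (by omega) (by omega)]
    simp only [Nat.sub_self, Nat.reduceAdd]
    rw [a0, A2, zero_add]
  have PA2 : plA n (fun i => lfA n i ^ K * a i) 2 = a 1 + 2 ^ K * a 3 := by
    rw [plA_eq (by omega) (by omega)]
    simp only [Nat.reduceSub, Nat.reduceAdd]
    rw [A1, A3]
  have PA3 : plA n (fun i => lfA n i ^ K * a i) 3 = 2 ^ K * a 2 + 2 ^ K * a 4 := by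
    rw [plA_eq (by omega) (by omega)]
    simp only [Nat.reduceSub, Nat.reduceAdd]
    rw [A2, A4]
  have PA4 : plA n (fun i => lfA n i ^ K * a i) 4 = 2 ^ K * a 3 + 2 ^ K * a 5 := by
    rw [plA_eq (by omega) (by omega)]
    simp only [Nat.reduceSub, Nat.reduceAdd]
    rw [A3, A5]
  have PD1 : plD n (fun j => lfD n j ^ K * d j) 1 = 3 ^ K * d 2 := by
    rw [plD_one, D2]
  have PD2 : plD n (fun j => lfD n j ^ K * d j) 2 = 2 * d 1 + 2 ^ K * d 3 := by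
    rw [plD_two, D1, D3]
  have PD3 : plD n (fun j => lfD n j ^ K * d j) 3 = 3 ^ K * d 2 + 2 ^ K * d 4 := by
    rw [plD_eq (by omega) (by omega)]
    simp only [Nat.reduceSub, Nat.reduceAdd]
    rw [D2, D4]
  have hcase : (K = 0) ∨ (((2:ℝ) ^ K = 2 ∧ (3:ℝ) ^ K = 3) ∨ ((2:ℝ) ^ K = 4 ∧ (3:ℝ) ^ K = 9) ∨
      ((2:ℝ) ^ K = 8 ∧ (3:ℝ) ^ K = 27) ∨ (16 ≤ (2:ℝ) ^ K ∧ 5 * (2:ℝ) ^ K ≤ 3 ^ K)) := by
    rcases Nat.eq_zero_or_pos K with h | h
    · left; exact h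
    · right; exact pw K h
  have hu : 0 < a 4 * a 5 := by positivity
  suffices hmain : ((a 1 + 2 ^ K * a 3) * (2 ^ K * a 2 + 2 ^ K * a 4) ≤ 3 ^ K * d 2 * (2 * d 1 + 2 ^ K * d 3)) ∧
      ((2 ^ K * a 2 + 2 ^ K * a 4) * (2 ^ K * a 3 + 2 ^ K * a 5) ≤
        (2 * d 1 + 2 ^ K * d 3) * (3 ^ K * d 2 + 2 ^ K * d 4)) ∧
      ((2 ^ K * a 2) * (a 1 + 2 ^ K * a 3) + (2 ^ K * a 2) * (2 ^ K * a 3 + 2 ^ K * a 5) -
        (a 1 + 2 ^ K * a 3) * (2 ^ K * a 2 + 2 ^ K * a 4) ≤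
        2 * ((2 * d 1 + 2 ^ K * d 3) * (3 ^ K * d 2 + 2 ^ K * d 4) -
          (2 ^ K * a 2 + 2 ^ K * a 4) * (2 ^ K * a 3 + 2 ^ K * a 5))) ∧
      ((2 ^ K * a 2 + (2 ^ K * a 2 + 2 ^ K * a 4)) * ((a 1 + 2 ^ K * a 3) + (2 ^ K * a 3 + 2 ^ K * a 5)) ≤
        (2 * d 1 + 2 ^ K * d 3) * (2 * (3 ^ K * d 2) + (3 ^ K * d 2 + 2 ^ K * d 4))) by
    obtain ⟨g1, g2, g3, g4⟩ := hmain
    refine ⟨?_, ?_, ?_, ?_, ?_⟩
    · rw [PA2, PA3, PD1, PD2]; exact g1
    · intro j h1 h2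
      by_cases hj : j = 2
      · subst hj
        simp only [Nat.reduceAdd]
        rw [PA3, PA4, PD2, PD3]; exact g2
      · exact VV_plant hta htd htV j (by omega) h2
    · rw [PA1, PA3]
      have h2K : (0:ℝ) < 2 ^ K := by positivity
      have h24 := mul_le_mul_of_nonneg_left (m23.trans m34) h2K.le
      linarith only [h24]
    · rw [PA1, PA2, PA3, PA4, PD2, PD3]; exact g3
    · rw [PA1, PA2, PA3, PA4, PD1, PD2, PD3]; exact g4
  have hN := hA
  rcases hcase with h0 | hcase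
  · -- `K = 0`
    have hα0 := hK h0
    subst h0
    simp only [pow_zero]
    exact four0 _ _ _ _ _ _ _ _ _ p1 p2 p3 p4 p5 hL hA hV2 hV3 hRS h13 hα0
  · -- `K ≥ 1`
    exact four _ _ _ _ _ _ _ _ _ _ _ hcase p1 p2 p3 p4 p5 (m12.trans m23) hps hL hA hV2 hV3 hRS h13

end Pool.Agent.W106.HT
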