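import Pool.Agent.W106.HT.Defs

/-!
Exact statements of the parts of the proof of S10429 (MP_9e5f8f_co): `hom(S, P_n) ≤ hom(S, T)`.
Every `S_xxx` is a `Prop`; the proofs are in other files.
-/

set_option autoImplicit false

namespace Pool.Agent.W106.HT

open Finset

/-! ### Trees -/

/-- Isomorphism of rooted trees. -/
def RIso (A B : BT) : Prop := ∃ e : A.graph ≃g B.graph, e A.root = B.root

/-- `ch k A`: a path with `k` new vertices on top of `A` (the root is the top of the path). -/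
def ch : ℕ → BT → BT
  | 0, A => A
  | k + 1, A => .att .pt (ch k A)

/-- A new root with the branches `A`, `B`. -/
def node2 (A B : BT) : BT := .att (.att .pt A) B

/-- A new root with the branches `A`, `B`, `C`. -/
def N3 (A B C : BT) : BT := .att (node2 A B) C

/-- `lv k t`: `t` with `k` more leaves at the root. -/
def lv : ℕ → BT → BT
  | 0, t => t
  | k + 1, t => .att (lv k t) .pt

/-- The number of children of the root. -/
def nch : BT → ℕ
  | .pt => 0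
  | .att a _ => nch a + 1

/-- The product of `deg v ^ deg v` over all vertices `v` other than the root. -/
def ent : BT → ℕ
  | .pt => 1
  | .att a b => ent a * (ent b * (nch b + 1) ^ (nch b + 1))

/-- The product of `deg v ^ deg v` over all vertices `v` if one more edge goes up from the root. -/
def entf (t : BT) : ℕ := ent t * (nch t + 1) ^ (nch t + 1)

def S_congr : Prop := ∀ (W W' : Type) [Fintype W] [Fintype W'] (G : SimpleGraph W) (G' : SimpleGraph W'),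
  Nonempty (G ≃g G') → ∀ t : BT, tot G t = tot G' t

def S_card : Prop := ∀ (W : Type) [Fintype W] (G : SimpleGraph W) (t : BT),
  Nat.card (t.graph →g G) = tot G t

/-- Every finite tree, with any choice of the root, is given by a term. -/
def S_rep : Prop := ∀ (W : Type) [Fintype W] (T : SimpleGraph W), T.IsTree → ∀ r : W,
  ∃ τ : BT, ∃ e : τ.graph ≃g T, e τ.root = r

/-- Upper bound for the path. -/
def S_pathUB : Prop := ∀ n : ℕ, 2 ≤ n → ∀ t : BT, t ≠ .pt →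
  tot (SimpleGraph.pathGraph n) t ≤ (n - 1) * 2 ^ (t.size - 1)

/-- Better upper bound for the path. -/
def S_pathUB2 : Prop := ∀ n : ℕ, 4 ≤ n → ∀ t : BT, 3 ≤ t.size →
  tot (SimpleGraph.pathGraph n) t ≤ (n - 2) * 2 ^ (t.size - 1) + 2

/-- Entropy lower bound. -/
def S_entropy : Prop := ∀ (W : Type) [Fintype W] (G : SimpleGraph W) [DecidableRel G.Adj],
  (∀ v, 1 ≤ G.degree v) →
  2 ^ (∑ v, G.degree v) ≤ ∏ v, G.degree v ^ G.degree v →
  ∀ t : BT, t ≠ .pt → (∑ v, G.degree v) * 2 ^ (t.size - 1) ≤ 2 * tot G t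

/-- The fold lemma, an arm with an even number `2 * l + 2` of vertices. -/
def S_foldE : Prop := ∀ (B Z : BT) (l : ℕ) (t : BT),
  tot (BT.att Z (ch (2 * l + 3) B)).graph t ≤ tot (N3 B (ch (2 * l + 1) .pt) Z).graph t

/-- The fold lemma, an arm with an odd number `2 * l + 1` of vertices. -/
def S_foldO : Prop := ∀ (B Z : BT) (l : ℕ) (t : BT),
  tot (N3 (ch (2 * l) B) .pt Z).graph t ≤ tot (N3 B (ch (2 * l) .pt) Z).graph t

/-- The double fork with `L + 6` vertices. -/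
def S_dt : Prop := ∀ (L : ℕ) (t : BT),
  tot (SimpleGraph.pathGraph (L + 6)) t ≤ tot (N3 (ch L (node2 .pt .pt)) .pt .pt).graph t

/-- Trees with small entropy. -/
def S_class : Prop := ∀ τ : BT, 4 ^ τ.size ≤ entf τ ∨
  (∃ k, RIso τ (ch k .pt)) ∨
  (∃ l i j, RIso τ (ch l (node2 (ch i .pt) (ch j .pt)))) ∨
  (∃ l i l' j h, RIso τ (ch l (node2 (ch i .pt) (ch l' (node2 (ch j .pt) (ch h .pt))))))

/-- The main case. -/
def S_main : Prop := ∀ n : ℕ, 6 ≤ n → Even n → ∀ t : BT,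
  tot (SimpleGraph.pathGraph n) t ≤ tot (Dg n) t

/-- Reduction of all trees to `D_n`. -/
def S_red : Prop := ∀ n : ℕ, 5 ≤ n → ∀ T : SimpleGraph (Fin n), T.IsTree → ∀ t : BT,
  tot (SimpleGraph.pathGraph n) t ≤ tot T t

/-! ### Vectors for the main case -/

/-- Planting on the path with the vertices `1, ..., n`. -/
def plA (n : ℕ) (a : ℕ → ℝ) (i : ℕ) : ℝ := if 1 ≤ i ∧ i ≤ n then a (i - 1) + a (i + 1) else 0

/-- Planting on `D_n`; position `1` = both leaves of the fork, `2` = the fork, `n - 1` = the far end. -/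
def plD (n : ℕ) (d : ℕ → ℝ) (j : ℕ) : ℝ :=
  if j = 0 then 0 else if j = 1 then d 2 else if j = 2 then 2 * d 1 + d 3 else
    if j ≤ n - 1 then d (j - 1) + d (j + 1) else 0

/-- The number of homomorphisms to the path with the root at `i`. -/
def vA (n : ℕ) : BT → ℕ → ℝ
  | .pt, i => if 1 ≤ i ∧ i ≤ n then 1 else 0
  | .att a b, i => vA n a i * plA n (vA n b) i

/-- The number of homomorphisms to `D_n` with the root at `j`. -/
def vD (n : ℕ) : BT → ℕ → ℝ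
  | .pt, j => if 1 ≤ j ∧ j ≤ n - 1 then 1 else 0
  | .att a b, j => vD n a j * plD n (vD n b) j

/-- The vector of one leaf: `1, 2, ..., 2, 1`. -/
def lfA (n : ℕ) (i : ℕ) : ℝ := if i = 0 ∨ n < i then 0 else if i = 1 ∨ i = n then 1 else 2

/-- The vector of one leaf on `D_n`: `1, 3, 2, ..., 2, 1`. -/
def lfD (n : ℕ) (j : ℕ) : ℝ :=
  if j = 0 ∨ n - 1 < j then 0 else if j = 1 ∨ j = n - 1 then 1 else if j = 2 then 3 else 2

def sumA (n : ℕ) (a : ℕ → ℝ) : ℝ := ∑ i ∈ Icc 1 n, a i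

def sumD (n : ℕ) (d : ℕ → ℝ) : ℝ := d 1 + ∑ j ∈ Icc 1 (n - 1), d j

/-- Facts about the vectors for the path. -/
structure AF (n : ℕ) (a : ℕ → ℝ) : Prop where
  pos : ∀ i, 1 ≤ i → i ≤ n → 0 < a i
  zero : a 0 = 0
  zero' : ∀ i, n < i → a i = 0
  sym : ∀ i, 1 ≤ i → i ≤ n → a (n + 1 - i) = a i
  mono : ∀ i, 1 ≤ i → 2 * (i + 1) ≤ n → a i ≤ a (i + 1)
  L : ∀ p q, 1 ≤ p → p + 3 ≤ q → q ≤ n → Odd (q - p) → a p * a q ≤ a (p + 1) * a (q - 1)

/-- Facts about the vectors for `D_n`. -/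
structure DF (n : ℕ) (d : ℕ → ℝ) : Prop where
  pos : ∀ j, 1 ≤ j → j ≤ n - 1 → 0 < d j
  zero : d 0 = 0
  zero' : ∀ j, n - 1 < j → d j = 0

/-- The inequalities `V_j`. -/
def VV (n : ℕ) (a d : ℕ → ℝ) : Prop :=
  ∀ j, 2 ≤ j → j ≤ n - 2 → a (j + 1) * a (j + 2) ≤ d j * d (j + 1)

/-- The invariant of the induction. -/
structure Good (n : ℕ) (a d : ℕ → ℝ) : Prop where
  A : a 2 * a 3 ≤ d 1 * d 2
  V : VV n a d
  half : 2 * a 1 ≤ a 3
  star : a 1 * a 2 + a 1 * a 4 - a 2 * a 3 ≤ 2 * (d 2 * d 3 - a 3 * a 4)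
  alpha : (a 1 + a 3) * (a 2 + a 4) ≤ d 2 * (2 * d 1 + d 3)

/-- The link between the vectors and the numbers of homomorphisms. -/
def S_link : Prop := ∀ n : ℕ, 6 ≤ n → ∀ t : BT,
  (tot (SimpleGraph.pathGraph n) t : ℝ) = sumA n (vA n t) ∧ (tot (Dg n) t : ℝ) = sumD n (vD n t)

def S_af : Prop := ∀ n : ℕ, 6 ≤ n → Even n →
  AF n (vA n .pt) ∧ (∀ a b, AF n a → AF n b → AF n (fun i => a i * b i)) ∧ (∀ a, AF n a → AF n (plA n a)) ∧
  DF n (vD n .pt) ∧ (∀ a b, DF n a → DF n b → DF n (fun i => a i * b i)) ∧ (∀ a, DF n a → DF n (plD n a))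

def S_prod : Prop := ∀ n : ℕ, 6 ≤ n → Even n → ∀ a d a' d', AF n a → DF n d → AF n a' → DF n d' →
  Good n a d → Good n a' d' → Good n (fun i => a i * a' i) (fun i => d i * d' i)

def S_plant : Prop := ∀ n : ℕ, 6 ≤ n → Even n → ∀ a d, AF n a → DF n d →
  a 2 * a 3 ≤ d 1 * d 2 → VV n a d → ∀ K : ℕ, (K = 0 → (a 1 + a 3) * (a 2 + a 4) ≤ d 2 * (2 * d 1 + d 3)) →
  Good n (plA n (fun i => lfA n i ^ K * a i)) (plD n (fun j => lfD n j ^ K * d j))

/-- The tail of the final sum. -/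
def S_tail : Prop := ∀ n : ℕ, 6 ≤ n → Even n → ∀ a d, AF n a → DF n d → VV n a d → ∀ β : ℝ, 2 ≤ β →
  (2 * β * (a 4 - a 3) + β * (a 2 - a 1) + a 2) * (1 - d 3 / a 4) ≤
    (∑ i ∈ Icc 4 (n - 3), 2 * β * (d i - a (i + 1))) + (β + 1) * (d (n - 2) - a (n - 1)) +
      β * (d (n - 1) - a n)

/-- The head of the final sum. -/
def S_H : Prop := ∀ (k : ℕ), 1 ≤ k → ∀ a1 a2 a3 a4 d1 d2 d3 : ℝ, 0 < a1 → a1 ≤ a2 → a2 ≤ a3 → a3 ≤ a4 →
  0 < d1 → 0 < d2 → 0 < d3 → a3 * a4 ≤ d2 * d3 → (a1 + a3) * (a2 + a4) ≤ d2 * (2 * d1 + d3) →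
  2 * 2 ^ k * (a1 + 2 * a3) ≤ 2 * 3 ^ k * d1 + (2 + 2 ^ k) * d2 +
    ((3 ^ k - 2 ^ k) * a4 + 2 * 2 ^ k * a3 + 2 ^ k * a1 - (2 ^ k + 1) * a2) * (d3 / a4)

/-- The final inequality. -/
def S_fin : Prop := ∀ n : ℕ, 6 ≤ n → Even n → ∀ a d, AF n a → DF n d → VV n a d →
  (a 1 + a 3) * (a 2 + a 4) ≤ d 2 * (2 * d 1 + d 3) → ∀ k : ℕ, 1 ≤ k →
  sumA n (fun i => lfA n i ^ k * plA n a i) ≤ sumD n (fun j => lfD n j ^ k * plD n d j)

/-- Re-rooting of the source. -/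
def S_root : Prop := ∀ t : BT,
  (∃ k, ∀ (W : Type) [Fintype W] (G : SimpleGraph W), tot G t = tot G (lv k .pt)) ∨
  (∃ k w, 1 ≤ k ∧ w ≠ .pt ∧ ∀ (W : Type) [Fintype W] (G : SimpleGraph W),
    tot G t = tot G (lv k (.att .pt w)))

end Pool.Agent.W106.HT
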